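import Pool.Agent.Helper69.RN.St
import Pool.Agent.Helper56.W.DEN

/-!
# RING NOISE, module FU: few deficient levels along most paths give nearly full entropy
-/

set_option autoImplicit false

namespace Pool.Agent.Helper68.RN

open Finset Pool.Agent.Helper69.RK Pool.Agent.Helper61.GL Pool.Agent.Helper46.WF Pool.Agent.Helper92.W

section

variable {Ω : Type} [Fintype Ω]

/-- the entropy gained by a window is the mean of the local entropies -/
theorem fu_step (μ : Ω → ℝ) (hμ : ∀ ω, 0 ≤ μ ω) (z : Ω → ℝ) (l r : ℕ) :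
    ∑ ω, μ ω * LH μ (fun ω' => fl (l + r) (z ω')) (fun ω' => fl l (z ω')) ω =
      Hh μ (fun ω => fl (l + r) (z ω)) - Hh μ (fun ω => fl l (z ω)) := by
  rw [← ch_eq_sum_LH μ hμ]
  have h1 := ch_chain μ (fun ω => fl l (z ω)) (fun ω => fl (l + r) (z ω)) (fun _ => ())
  have h2 : CH μ (fun ω => (fl l (z ω), fl (l + r) (z ω))) (fun _ => ()) =
      CH μ (fun ω => fl (l + r) (z ω)) (fun _ => ()) := by
    apply ch_congr_left
    intro ω ω' _ _ _
    rw [Prod.mk.injEq]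
    exact ⟨fun e => e.2, fun e => ⟨den_fl_of l r _ _ e, e⟩⟩
  have h3 : CH μ (fun ω => fl (l + r) (z ω)) (fun ω => (fl l (z ω), ())) =
      CH μ (fun ω => fl (l + r) (z ω)) (fun ω => fl l (z ω)) := by
    apply ch_congr_right
    intro ω ω' _ _
    rw [Prod.mk.injEq]
    exact ⟨fun e => e.1, fun e => ⟨e, rfl⟩⟩
  unfold Hh
  linarith

theorem fu_mono (μ : Ω → ℝ) (hμ : ∀ ω, 0 ≤ μ ω) (z : Ω → ℝ) (l r : ℕ) (h : l ≤ r) :
    Hh μ (fun ω => fl l (z ω)) ≤ Hh μ (fun ω => fl r (z ω)) := by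
  unfold Hh
  refine ch_mono μ hμ _ _ _ fun ω ω' _ _ e _ => ?_
  obtain ⟨d, rfl⟩ := Nat.exists_eq_add_of_le h
  exact den_fl_of l d _ _ e

open Classical in
/-- one path with few deficient levels -/
theorem fu_path (μ : Ω → ℝ) (hμ : ∀ ω, 0 ≤ μ ω) (z : Ω → ℝ) (c ε' : ℝ) (R n : ℕ) (hc2 : c ≤ 2)
    (ω : Ω) (hg : ¬ (ε' * n ≤ (((range (n + 1)).filter (fun t => DL μ z c R t ω)).card : ℝ))) :
    ((1 - ε') * n - R) * (R * (1 - c / 2)) ≤
      ∑ l ∈ Ico 0 (n + 1 - R), LH μ (fun ω' => fl (l + R) (z ω')) (fun ω' => fl l (z ω')) ω := by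
  set G := (Ico 0 (n + 1 - R)).filter (fun l => DL μ z c R (l + R) ω) with hG
  set B := (Ico 0 (n + 1 - R)).filter (fun l => ¬ DL μ z c R (l + R) ω) with hB
  have hcard : (G.card : ℝ) + B.card = ((n + 1 - R : ℕ) : ℝ) := by
    have e := Finset.card_filter_add_card_filter_not (s := Ico 0 (n + 1 - R)) (fun l => DL μ z c R (l + R) ω)
    rw [Nat.card_Ico, Nat.sub_zero] at e
    exact_mod_cast e
  have hG2 : G.card ≤ ((range (n + 1)).filter (fun t => DL μ z c R t ω)).card := by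
    refine Finset.card_le_card_of_injOn (fun l => l + R) ?_ (fun a _ b _ e => by
      have e' : a + R = b + R := e
      omega)
    intro l hl
    have hl' := Finset.mem_filter.1 (Finset.mem_coe.1 hl)
    have h1 := Finset.mem_Ico.1 hl'.1
    refine Finset.mem_coe.2 (Finset.mem_filter.2 ⟨Finset.mem_range.2 ?_, hl'.2⟩)
    show l + R < n + 1
    omega
  have hG3 : (G.card : ℝ) ≤ ε' * n := by
    have : (G.card : ℝ) ≤ (((range (n + 1)).filter (fun t => DL μ z c R t ω)).card : ℝ) := by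
      exact_mod_cast hG2
    linarith
  have hn : (n : ℝ) - R ≤ ((n + 1 - R : ℕ) : ℝ) := by
    have : n ≤ (n + 1 - R) + R := by omega
    have : (n : ℝ) ≤ ((n + 1 - R : ℕ) : ℝ) + R := by exact_mod_cast this
    linarith
  have hB3 : (1 - ε') * n - R ≤ (B.card : ℝ) := by linarith
  have hR0 : (0 : ℝ) ≤ R * (1 - c / 2) := by
    have : (0 : ℝ) ≤ 1 - c / 2 := by linarith
    positivity
  calc ((1 - ε') * n - R) * (R * (1 - c / 2)) ≤ (B.card : ℝ) * (R * (1 - c / 2)) :=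
        mul_le_mul_of_nonneg_right hB3 hR0
    _ = ∑ _l ∈ B, (R * (1 - c / 2) : ℝ) := by rw [Finset.sum_const, nsmul_eq_mul]
    _ ≤ ∑ l ∈ B, LH μ (fun ω' => fl (l + R) (z ω')) (fun ω' => fl l (z ω')) ω := by
        refine Finset.sum_le_sum fun l hl => ?_
        have h1 := (Finset.mem_filter.1 hl).2
        by_contra h2
        apply h1
        refine ⟨Nat.le_add_left R l, ?_⟩
        unfold de
        rw [Nat.add_sub_cancel]
        have h3 := not_le.1 h2
        nlinarith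
    _ ≤ ∑ l ∈ Ico 0 (n + 1 - R), LH μ (fun ω' => fl (l + R) (z ω')) (fun ω' => fl l (z ω')) ω := by
        refine Finset.sum_le_sum_of_subset_of_nonneg (Finset.filter_subset _ _) fun l _ _ => ?_
        exact den_LH_nonneg μ hμ _ _ ω

/-- **FULL**: few deficient levels along most paths give nearly full entropy -/
theorem st_FU : Pool.Agent.Helper69.RN.ST_FU := by
  intro ε hε
  by_cases hε1 : 1 ≤ ε
  · refine ⟨1, 1, one_pos, le_rfl, one_pos, fun R _ => ⟨0, fun n _ Ω _ μ z hμ _ _ _ => ?_⟩⟩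
    have h1 := Hh_nonneg μ hμ (fun ω => fl n (z ω))
    have h2 : (1 - ε) * (n : ℝ) ≤ 0 := mul_nonpos_of_nonpos_of_nonneg (by linarith) (Nat.cast_nonneg n)
    linarith
  have hε1 := not_le.1 hε1
  refine ⟨ε / 2, ε / 8, by linarith, by linarith, by linarith, fun R hR =>
    ⟨⌈2 * (R : ℝ) / ε⌉₊, fun n hn Ω _ μ z hμ hm _ hd => ?_⟩⟩
  classical
  have hR' : (1 : ℝ) ≤ R := by exact_mod_cast hR
  have hn' : 2 * (R : ℝ) ≤ ε * n := by
    have h1 : 2 * (R : ℝ) / ε ≤ n := le_trans (Nat.le_ceil _) (by exact_mod_cast hn)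
    rw [div_le_iff₀ hε] at h1
    linarith
  have hRn : R ≤ n := by
    have : (R : ℝ) ≤ n := by nlinarith [Nat.cast_nonneg (α := ℝ) n]
    exact_mod_cast this
  set A : Ω → Prop := fun ω => ε / 8 * n ≤ (((range (n + 1)).filter (fun t => DL μ z (ε / 2) R t ω)).card : ℝ)
    with hA
  set y : ℝ := ((1 - ε / 8) * n - R) * (R * (1 - ε / 2 / 2)) with hy
  have hy0 : 0 ≤ y := by
    have h1 : 0 ≤ (1 - ε / 8) * n - R := by nlinarith [Nat.cast_nonneg (α := ℝ) n]
    have h2 : (0 : ℝ) ≤ R * (1 - ε / 2 / 2) := mul_nonneg (by linarith) (by linarith)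
    exact mul_nonneg h1 h2
  -- upper bound of the total of the windows
  have hup : ∑ ω, μ ω * ∑ l ∈ Ico 0 (n + 1 - R), LH μ (fun ω' => fl (l + R) (z ω'))
      (fun ω' => fl l (z ω')) ω ≤ R * Hh μ (fun ω => fl n (z ω)) := by
    have e1 : ∑ ω, μ ω * ∑ l ∈ Ico 0 (n + 1 - R), LH μ (fun ω' => fl (l + R) (z ω'))
        (fun ω' => fl l (z ω')) ω =
        ∑ l ∈ Ico 0 (n + 1 - R), (Hh μ (fun ω => fl (l + R) (z ω)) - Hh μ (fun ω => fl l (z ω))) := by
      simp only [Finset.mul_sum]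
      rw [Finset.sum_comm]
      exact Finset.sum_congr rfl fun l _ => fu_step μ hμ z l R
    rw [e1, den_tele (fun s => Hh μ (fun ω => fl s (z ω))) R 0 (n + 1 - R) (Nat.zero_le _)]
    refine le_trans (Finset.sum_le_sum (g := fun _ => Hh μ (fun ω => fl n (z ω))) fun i hi => ?_) ?_
    · have h1 := Finset.mem_range.1 hi
      have h2 := fu_mono μ hμ z (n + 1 - R + i) n (by omega)
      have h3 := Hh_nonneg μ hμ (fun ω => fl (0 + i) (z ω))
      linarith
    · rw [Finset.sum_const, card_range, nsmul_eq_mul]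
  -- lower bound
  have hlow : (1 - ε / 8) * y ≤ ∑ ω, μ ω * ∑ l ∈ Ico 0 (n + 1 - R), LH μ (fun ω' => fl (l + R) (z ω'))
      (fun ω' => fl l (z ω')) ω := by
    have h1 : Pw μ (fun ω => ¬ A ω) = 1 - Pw μ A := Pw_compl μ hm A
    have h2 : (1 - ε / 8) * y ≤ Pw μ (fun ω => ¬ A ω) * y :=
      mul_le_mul_of_nonneg_right (by rw [h1]; linarith) hy0
    refine le_trans h2 ?_
    unfold Pw
    rw [Finset.sum_mul]
    refine Finset.sum_le_sum fun ω _ => ?_
    by_cases hω : A ω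
    · rw [if_neg (not_not.2 hω), zero_mul]
      exact mul_nonneg (hμ ω) (Finset.sum_nonneg fun l _ => den_LH_nonneg μ hμ _ _ ω)
    · rw [if_pos hω]
      exact mul_le_mul_of_nonneg_left
        (fu_path μ hμ z (ε / 2) (ε / 8) R n (by linarith) ω hω) (hμ ω)
  have hfin : (1 - ε / 8) * (((1 - ε / 8) * n - R) * (1 - ε / 2 / 2)) ≤ Hh μ (fun ω => fl n (z ω)) := by
    have h3 : R * ((1 - ε / 8) * (((1 - ε / 8) * n - R) * (1 - ε / 2 / 2))) ≤
        R * Hh μ (fun ω => fl n (z ω)) := by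
      have : R * ((1 - ε / 8) * (((1 - ε / 8) * n - R) * (1 - ε / 2 / 2))) = (1 - ε / 8) * y := by
        rw [hy]; ring
      rw [this]
      linarith
    exact le_of_mul_le_mul_left h3 (by linarith)
  refine le_trans ?_ hfin
  have hn0 : (0 : ℝ) ≤ n := Nat.cast_nonneg n
  have a1 : (1 - ε / 4) * ((1 - ε / 8) * n - R) ≥ (1 - 3 * ε / 8) * n - R := by nlinarith
  have a2 : 0 ≤ (1 - ε / 8) * n - R := by nlinarith
  have a3 : (1 - ε / 8) * ((1 - ε / 4) * ((1 - ε / 8) * n - R)) ≥ (1 - ε / 8) * ((1 - 3 * ε / 8) * n - R) :=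
    mul_le_mul_of_nonneg_left a1 (by linarith)
  have a4 : (1 - ε / 8) * ((1 - 3 * ε / 8) * n - R) ≥ (1 - ε / 2) * n - R := by nlinarith
  have a5 : (1 - ε / 8) * (((1 - ε / 8) * n - R) * (1 - ε / 2 / 2)) =
      (1 - ε / 8) * ((1 - ε / 4) * ((1 - ε / 8) * n - R)) := by ring
  rw [a5]
  nlinarith

end

end Pool.Agent.Helper68.RN
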