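import Pool.Agent.Helper53.BO.LD

/-!
Completion of the clusters of a partial rounding, with oracles for the signs inside the clusters
and for the signs of the clusters (Beck-Fiala, MP_e8ee11).
-/

namespace Pool.Agent.Helper68.RN

open scoped Classical

/-- signs on the set `U`, cut into clusters by `g` -/
theorem flo_sign {V J Q : Type} [Fintype V] [Fintype J] [Fintype Q] (c : J → V → ℝ)
    (U : Finset V) (g : V → Q) (Big : J → Q → Prop) {R R' : ℝ} (hR : 0 ≤ R)
    (hbig : ∀ j v v', Big j v → Big j v' → v = v') (ev : Q → V → ℝ)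
    (hev : ∀ v i, |ev v i| = 1)
    (hin : ∀ j v, Big j v → |∑ u ∈ U.filter (fun u => g u = v), c j u * ev v u| ≤ R)
    (s : Q → ℝ) (hs : ∀ v, |s v| = 1)
    (hout : ∀ j, |∑ v, (if Big j v then 0
      else ∑ u ∈ U.filter (fun u => g u = v), c j u * ev v u) * s v| ≤ R') :
    ∃ e : V → ℝ, (∀ i ∈ U, |e i| = 1) ∧ (∀ i, i ∉ U → e i = 0) ∧
      ∀ j, |∑ i, c j i * e i| ≤ R + R' := by
  have hfib : ∀ f : V → ℝ, ∑ v, ∑ u ∈ U.filter (fun u => g u = v), f u = ∑ u ∈ U, f u :=
    fun f => Finset.sum_fiberwise U g f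
  refine ⟨fun i => if i ∈ U then s (g i) * ev (g i) i else 0, fun i hi => ?_, fun i hi => ?_,
    fun j => ?_⟩
  · simp only [hi, if_true]
    rw [abs_mul, hs, hev, one_mul]
  · simp only [hi, if_false]
  · have h1 : ∑ i, c j i * (if i ∈ U then s (g i) * ev (g i) i else 0)
        = ∑ v, ∑ u ∈ U.filter (fun u => g u = v), c j u * (s v * ev v u) := by
      have h2 : ∑ i, c j i * (if i ∈ U then s (g i) * ev (g i) i else 0)
          = ∑ i ∈ U, c j i * (s (g i) * ev (g i) i) := by
        rw [← Finset.sum_filter_add_sum_filter_not Finset.univ (fun i => i ∈ U)]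
        rw [Finset.filter_mem_eq_inter, Finset.univ_inter]
        rw [Finset.sum_eq_zero (s := Finset.univ.filter fun i => i ∉ U) fun i hi => by
          rw [if_neg (Finset.mem_filter.1 hi).2, mul_zero], add_zero]
        exact Finset.sum_congr rfl fun i hi => by rw [if_pos hi]
      rw [h2, ← hfib]
      refine Finset.sum_congr rfl fun v _ => Finset.sum_congr rfl fun u hu => ?_
      rw [(Finset.mem_filter.1 hu).2]
    have h3 : ∑ v, ∑ u ∈ U.filter (fun u => g u = v), c j u * (s v * ev v u)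
        = ∑ v, (if Big j v then 0
          else ∑ u ∈ U.filter (fun u => g u = v), c j u * ev v u) * s v
        + ∑ v, (if Big j v then s v * ∑ u ∈ U.filter (fun u => g u = v), c j u * ev v u
          else 0) := by
      rw [← Finset.sum_add_distrib]
      refine Finset.sum_congr rfl fun v _ => ?_
      have h4 : ∑ u ∈ U.filter (fun u => g u = v), c j u * (s v * ev v u)
          = s v * ∑ u ∈ U.filter (fun u => g u = v), c j u * ev v u := by
        rw [Finset.mul_sum]
        exact Finset.sum_congr rfl fun u _ => by ring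
      rw [h4]
      by_cases hb : Big j v
      · rw [if_pos hb, if_pos hb]; ring
      · rw [if_neg hb, if_neg hb]; ring
    rw [h1, h3]
    refine (abs_add_le _ _).trans ?_
    have h7 : |∑ v, (if Big j v then s v * ∑ u ∈ U.filter (fun u => g u = v), c j u * ev v u
        else 0)| ≤ R := by
      by_cases hex : ∃ v, Big j v
      · obtain ⟨v0, hv0⟩ := hex
        rw [Finset.sum_eq_single v0]
        · rw [if_pos hv0, abs_mul, hs, one_mul]
          exact hin j v0 hv0
        · intro v _ hne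
          rw [if_neg]
          exact fun h => hne (hbig j v v0 h hv0)
        · intro h; exact absurd (Finset.mem_univ _) h
      · push Not at hex
        rw [Finset.sum_eq_zero fun v _ => if_neg (hex v), abs_zero]
        exact hR
    linarith [hout j]

/-- completion with oracles -/
theorem flo {V J Q : Type} [Fintype V] [Fintype J] [Fintype Q] (c : J → V → ℝ) (y : V → ℝ)
    (g : V → Q) (Big : J → Q → Prop) (P : Q → Finset V → (V → ℝ) → Prop) {R R' : ℝ}
    (hR : 0 ≤ R) (hy : ∀ i, |y i| ≤ 1)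
    (hbig : ∀ j v v', Big j v → Big j v' → v = v')
    (hin : ∀ (v : Q) (K : Finset V), (∀ u ∈ K, |y u| < 1 ∧ g u = v) →
      ∃ e : V → ℝ, (∀ i, |e i| = 1) ∧ P v K e)
    (hP : ∀ (v : Q) (K : Finset V) (e : V → ℝ), (∀ u ∈ K, |y u| < 1 ∧ g u = v) →
      (∀ i, |e i| = 1) → P v K e → ∀ j, Big j v → |∑ u ∈ K, c j u * e u| ≤ R)
    (hout : ∀ (U : Finset V) (ev : Q → V → ℝ), (∀ u ∈ U, |y u| < 1) → (∀ v i, |ev v i| = 1) →
      (∀ v, P v (U.filter fun u => g u = v) (ev v)) → ∃ s : Q → ℝ, (∀ v, |s v| = 1) ∧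
      ∀ j, |∑ v, (if Big j v then 0
        else ∑ u ∈ U.filter (fun u => g u = v), c j u * ev v u) * s v| ≤ R') :
    ∃ χ : V → ℝ, (∀ i, |χ i| = 1) ∧ (∀ i, |y i| = 1 → χ i = y i) ∧
      ∀ j, |∑ i, c j i * (χ i - y i)| ≤ 2 * (R + R') := by
  have main : ∀ U : Set V, U ⊆ {i | |y i| < 1} → ∃ e : V → ℝ, (∀ i ∈ U, |e i| = 1) ∧
      (∀ i, i ∉ U → e i = 0) ∧ ∀ j, |∑ i, c j i * e i| ≤ R + R' := by
    intro U hU
    set UF : Finset V := Finset.univ.filter fun u => u ∈ U with hUF
    have hm : ∀ u, u ∈ UF ↔ u ∈ U := fun u => by simp [hUF]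
    have hfr : ∀ v, ∀ u ∈ UF.filter (fun u => g u = v), |y u| < 1 ∧ g u = v := by
      intro v u hu
      have h := Finset.mem_filter.1 hu
      exact ⟨hU ((hm u).1 h.1), h.2⟩
    choose ev hev hevP using fun v => hin v (UF.filter fun u => g u = v) (hfr v)
    obtain ⟨s, hs, hsb⟩ := hout UF ev (fun u hu => hU ((hm u).1 hu)) hev hevP
    obtain ⟨e, e1, e2, e3⟩ := flo_sign c UF g Big hR hbig ev hev
      (fun j v hb => hP v _ (ev v) (hfr v) (hev v) (hevP v) j hb) s hs hsb
    exact ⟨e, fun i hi => e1 i ((hm i).2 hi), fun i hi => e2 i (fun h => hi ((hm i).1 h)), e3⟩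
  obtain ⟨χ, h1, h2, h3⟩ := Pool.Agent.Helper53.BO.ld_proof V J c {i | |y i| < 1} (R + R') main y
    hy (fun i hi => le_antisymm (hy i) (not_lt.1 hi))
  exact ⟨χ, h1, h2, h3⟩

end Pool.Agent.Helper68.RN
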