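import Pool.Agent.Helper53.BO.HO

/-!
Random signs with the union bound weighted by the masses of the rows (Beck-Fiala, MP_e8ee11).
-/

namespace Pool.Agent.Helper68.RN

open Real Pool.Agent.Helper53.BO
open scoped Classical

theorem exp_neg_div_le {m a : ℝ} (hm : 0 < m) (hm1 : m ≤ 1) (ha : 1 ≤ a) :
    exp (-(a / m)) ≤ m * exp (-a) := by
  have h1 : log (1 / m) ≤ 1 / m - 1 := log_le_sub_one_of_pos (by positivity)
  have h2 : 0 ≤ 1 / m - 1 := by
    rw [sub_nonneg, one_le_div hm]; exact hm1
  have h3 : exp (-(a / m)) = exp (-a) * exp (-(a * (1 / m - 1))) := by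
    rw [← exp_add]; congr 1; ring
  have h4 : exp (-(a * (1 / m - 1))) ≤ exp (-log (1 / m)) := by
    apply exp_le_exp.2
    have := mul_le_mul_of_nonneg_right ha h2
    linarith
  have h5 : exp (-log (1 / m)) = m := by
    rw [one_div, log_inv, neg_neg, exp_log hm]
  rw [h3]
  calc exp (-a) * exp (-(a * (1 / m - 1))) ≤ exp (-a) * m :=
        mul_le_mul_of_nonneg_left (h4.trans h5.le) (exp_pos _).le
    _ = m * exp (-a) := mul_comm _ _

theorem how {I J : Type} [Fintype I] [Fintype J] (x : J → I → ℝ) {G M : ℝ}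
    (hx : ∀ j, ∑ i, x j i ^ 2 ≤ 1) (hM : ∑ j, ∑ i, x j i ^ 2 ≤ M) (hG : 0 ≤ G) (hG2 : 2 ≤ G ^ 2)
    (hGM : 2 * M * exp (-(G ^ 2 / 2)) < 1) :
    ∃ e : I → ℝ, (∀ i, |e i| = 1) ∧ ∀ j, |∑ i, x j i * e i| ≤ G := by
  set m : J → ℝ := fun j => ∑ i, x j i ^ 2 with hmdef
  have hm0 : ∀ j, 0 ≤ m j := fun j => Finset.sum_nonneg fun i _ => sq_nonneg _
  set P := Fintype.piFinset (fun _ : I => (Finset.univ : Finset Bool)) with hP
  let lam : J → ℝ := fun j => G / m j
  let Q : J → (I → Bool) → ℝ := fun j p => if 0 < m j then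
    (exp (∑ i, (lam j * x j i) * (if p i then 1 else -1))
    + exp (∑ i, (-(lam j * x j i)) * (if p i then 1 else -1))) * exp (-(lam j * G)) else 0
  have hQ0 : ∀ j p, 0 ≤ Q j p := by
    intro j p
    simp only [Q]
    split_ifs <;> positivity
  have hcardP : (P.card : ℝ) = 2 ^ Fintype.card I := by
    rw [hP, Fintype.card_piFinset]
    simp
  have hbd : ∀ j, ∏ i, (2 * cosh (lam j * x j i))
      ≤ 2 ^ Fintype.card I * exp (lam j ^ 2 * m j / 2) := by
    intro j
    rw [Finset.prod_mul_distrib, Finset.prod_const, Finset.card_univ]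
    refine mul_le_mul_of_nonneg_left ?_ (by positivity)
    calc ∏ i, cosh (lam j * x j i) ≤ ∏ i, exp ((lam j * x j i) ^ 2 / 2) :=
          Finset.prod_le_prod (fun i _ => (cosh_pos _).le) fun i _ => cosh_le_exp_half_sq _
      _ = exp (∑ i, (lam j * x j i) ^ 2 / 2) := by rw [exp_sum]
      _ = exp (lam j ^ 2 * m j / 2) := by
          congr 1
          simp only [hmdef]
          rw [Finset.mul_sum, Finset.sum_div]
          exact Finset.sum_congr rfl fun i _ => by ring
  have havg : ∀ j, ∑ p ∈ P, Q j p ≤ 2 ^ Fintype.card I * (2 * m j * exp (-(G ^ 2 / 2))) := by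
    intro j
    by_cases hj : 0 < m j
    · simp only [Q, if_pos hj]
      rw [← Finset.sum_mul, Finset.sum_add_distrib, cosh_sum, cosh_sum]
      simp only [cosh_neg]
      have h1 := hbd j
      have e1 : lam j ^ 2 * m j / 2 + -(lam j * G) = -(G ^ 2 / 2 / m j) := by
        simp only [lam]
        field_simp
        ring
      calc (∏ i, (2 * cosh (lam j * x j i)) + ∏ i, (2 * cosh (lam j * x j i)))
            * exp (-(lam j * G))
          ≤ (2 * (2 ^ Fintype.card I * exp (lam j ^ 2 * m j / 2))) * exp (-(lam j * G)) := by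
            apply mul_le_mul_of_nonneg_right _ (exp_pos _).le
            linarith
        _ = 2 ^ Fintype.card I * (2 * exp (-(G ^ 2 / 2 / m j))) := by
            rw [← e1, exp_add]; ring
        _ ≤ 2 ^ Fintype.card I * (2 * (m j * exp (-(G ^ 2 / 2)))) := by
            have := exp_neg_div_le hj (hx j) (a := G ^ 2 / 2) (by linarith)
            gcongr
        _ = _ := by ring
    · simp only [Q, if_neg hj, Finset.sum_const_zero]
      have := hm0 j
      positivity
  have hsum : ∑ p ∈ P, ∑ j, Q j p < ∑ _p ∈ P, (1 : ℝ) := by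
    rw [Finset.sum_comm, Finset.sum_const, nsmul_eq_mul, mul_one, hcardP]
    calc ∑ j, ∑ p ∈ P, Q j p ≤ ∑ j, 2 ^ Fintype.card I * (2 * m j * exp (-(G ^ 2 / 2))) :=
          Finset.sum_le_sum fun j _ => havg j
      _ = 2 ^ Fintype.card I * (2 * (∑ j, m j) * exp (-(G ^ 2 / 2))) := by
          rw [← Finset.mul_sum, ← Finset.sum_mul, ← Finset.mul_sum]
      _ ≤ 2 ^ Fintype.card I * (2 * M * exp (-(G ^ 2 / 2))) := by
          gcongr
      _ < 2 ^ Fintype.card I * 1 := by
          apply mul_lt_mul_of_pos_left hGM (by positivity)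
      _ = _ := mul_one _
  obtain ⟨p, -, hp⟩ := Finset.exists_lt_of_sum_lt hsum
  refine ⟨fun i => if p i then 1 else -1, fun i => ?_, fun j => ?_⟩
  · dsimp only
    split_ifs <;> simp
  · by_cases hj : 0 < m j
    swap
    · have h0 : ∀ i, x j i = 0 := by
        intro i
        have h1 : x j i ^ 2 ≤ m j :=
          Finset.single_le_sum (f := fun i => x j i ^ 2) (fun i _ => sq_nonneg _)
            (Finset.mem_univ i)
        have h3 : x j i ^ 2 = 0 := le_antisymm (by linarith) (sq_nonneg _)
        exact pow_eq_zero_iff two_ne_zero |>.1 h3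
      simp [h0, hG]
    set S : ℝ := ∑ i, x j i * (if p i then 1 else -1) with hS
    have hl0 : 0 < lam j := by
      simp only [lam]
      have : 0 < G := by
        rcases hG.eq_or_lt with h | h
        · rw [← h] at hG2; norm_num at hG2
        · exact h
      positivity
    have h1 : exp (∑ i, (lam j * x j i) * (if p i then 1 else -1)) = exp (lam j * S) := by
      rw [hS, Finset.mul_sum]
      congr 1
      exact Finset.sum_congr rfl fun i _ => by ring
    have h2 : exp (∑ i, (-(lam j * x j i)) * (if p i then 1 else -1)) = exp (-(lam j * S)) := by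
      rw [hS, Finset.mul_sum, ← Finset.sum_neg_distrib]
      congr 1
      exact Finset.sum_congr rfl fun i _ => by ring
    have h3 : Q j p < 1 :=
      lt_of_le_of_lt (Finset.single_le_sum (f := fun j => Q j p) (fun j _ => hQ0 j p)
        (Finset.mem_univ j)) hp
    simp only [Q, if_pos hj] at h3
    rw [h1, h2] at h3
    by_contra hcon
    rw [not_le] at hcon
    have h4 : exp (lam j * |S|) ≤ exp (lam j * S) + exp (-(lam j * S)) := by
      rcases abs_cases S with ⟨h, _⟩ | ⟨h, _⟩
      · rw [h]; have := exp_pos (-(lam j * S)); linarith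
      · rw [h, mul_neg]; have := exp_pos (lam j * S); linarith
    have h5 : exp (lam j * G) ≤ exp (lam j * |S|) :=
      exp_le_exp.2 (mul_le_mul_of_nonneg_left hcon.le hl0.le)
    have h6 : exp (lam j * G) * exp (-(lam j * G)) = 1 := by
      rw [← exp_add]; simp
    have h7 := mul_le_mul_of_nonneg_right (h5.trans h4) (exp_pos (-(lam j * G))).le
    linarith

end Pool.Agent.Helper68.RN
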