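import Pool.Agent.Helper22.LT.JJ

/-!
General weights with an identity part (module RN of Beck-Fiala, MP_e8ee11).
-/

namespace Pool.Agent.Helper68.RN

open Real Pool.Agent.Helper26.Gsw Pool.Agent.Helper22.LT
open scoped RealInnerProductSpace Classical

variable {V J : Type*} [Fintype V] [Fintype J]

/-- weighted columns with identity part -/
noncomputable def bg (c : J → V → ℝ) (w : J → ℝ) (i : V) : EuclideanSpace ℝ (J ⊕ V) :=
  WithLp.toLp 2 (Sum.elim (fun j => √(w j) * c j i) (fun k => if k = i then √(1 / 2) else 0))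

/-- dual vector of a linear functional -/
noncomputable def tg (J : Type*) [Fintype J] (f : V → ℝ) : EuclideanSpace ℝ (J ⊕ V) :=
  WithLp.toLp 2 (Sum.elim (fun _ => 0) (fun k => √2 * f k))

omit [Fintype J] in
theorem comb_inl (c : J → V → ℝ) (w : J → ℝ) (u : V → ℝ) (j : J) :
    (∑ i, u i • bg c w i) (Sum.inl j) = √(w j) * rs c u j := by
  simp only [bg, rs, WithLp.ofLp_sum, WithLp.ofLp_smul, Finset.sum_apply, Pi.smul_apply,
    smul_eq_mul, Sum.elim_inl]
  rw [Finset.mul_sum]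
  exact Finset.sum_congr rfl fun i _ => by ring

omit [Fintype J] in
theorem comb_inr (c : J → V → ℝ) (w : J → ℝ) (u : V → ℝ) (k : V) :
    (∑ i, u i • bg c w i) (Sum.inr k) = √(1 / 2) * u k := by
  simp only [bg, WithLp.ofLp_sum, WithLp.ofLp_smul, Finset.sum_apply, Pi.smul_apply,
    smul_eq_mul, Sum.elim_inr, mul_ite, mul_zero]
  rw [Finset.sum_ite_eq]
  simp only [Finset.mem_univ, if_true]
  ring

theorem inner_tg (c : J → V → ℝ) (w : J → ℝ) (f u : V → ℝ) :
    ⟪tg J f, ∑ i, u i • bg c w i⟫ = ∑ k, f k * u k := by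
  rw [PiLp.inner_apply, Fintype.sum_sum_type]
  have e1 : ∑ j : J, ⟪(tg J f) (Sum.inl j), (∑ i, u i • bg c w i) (Sum.inl j)⟫ = 0 := by
    apply Finset.sum_eq_zero
    intro j _
    simp [tg]
  rw [e1, zero_add]
  refine Finset.sum_congr rfl fun k _ => ?_
  rw [comb_inr]
  simp only [tg, RCLike.inner_apply, conj_trivial, Sum.elim_inr]
  have h1 : √(1 / 2) * √2 = (1 : ℝ) := by
    rw [← Real.sqrt_mul (by norm_num)]
    norm_num
  calc √(1 / 2) * u k * (√2 * f k) = f k * u k * (√(1 / 2) * √2) := by ring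
    _ = _ := by rw [h1, mul_one]

theorem normsq_combg (c : J → V → ℝ) {w : J → ℝ} (hw : ∀ j, 0 ≤ w j) (u : V → ℝ) :
    ‖∑ i, u i • bg c w i‖ ^ 2 = ∑ j, w j * rs c u j ^ 2 + ∑ k, u k ^ 2 / 2 := by
  rw [EuclideanSpace.norm_sq_eq, Fintype.sum_sum_type]
  congr 1
  · refine Finset.sum_congr rfl fun j _ => ?_
    rw [comb_inl, Real.norm_eq_abs, sq_abs, mul_pow, Real.sq_sqrt (hw j)]
  · refine Finset.sum_congr rfl fun k _ => ?_
    rw [comb_inr, Real.norm_eq_abs, sq_abs, mul_pow, Real.sq_sqrt (by norm_num)]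
    ring

theorem normsq_bg (c : J → V → ℝ) {w : J → ℝ} (hw : ∀ j, 0 ≤ w j) (i : V) :
    ‖bg c w i‖ ^ 2 = ∑ j, w j * c j i ^ 2 + 1 / 2 := by
  rw [EuclideanSpace.norm_sq_eq, Fintype.sum_sum_type]
  congr 1
  · refine Finset.sum_congr rfl fun j _ => ?_
    simp only [bg, Sum.elim_inl]
    rw [Real.norm_eq_abs, sq_abs, mul_pow, Real.sq_sqrt (hw j)]
  · rw [Finset.sum_eq_single i]
    · simp only [bg, Sum.elim_inr, if_true]
      rw [Real.norm_eq_abs, sq_abs, Real.sq_sqrt (by norm_num)]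
    · intro k _ hk
      simp [bg, hk]
    · intro h
      exact absurd (Finset.mem_univ i) h

theorem normsq_tg (f : V → ℝ) : ‖tg J f‖ ^ 2 = 2 * ∑ k, f k ^ 2 := by
  rw [EuclideanSpace.norm_sq_eq, Fintype.sum_sum_type]
  have e1 : ∑ j : J, ‖(tg J f) (Sum.inl j)‖ ^ 2 = 0 := by
    apply Finset.sum_eq_zero
    intro j _
    simp [tg]
  rw [e1, zero_add, Finset.mul_sum]
  refine Finset.sum_congr rfl fun k _ => ?_
  simp only [tg, Sum.elim_inr]
  rw [Real.norm_eq_abs, sq_abs, mul_pow, Real.sq_sqrt (by norm_num)]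

/-- the variance functional -/
noncomputable def JG (c : J → V → ℝ) (w : J → ℝ) (A : Finset V) (f : V → ℝ) : ℝ :=
  ‖(Sp (bg c w) A).starProjection (tg J f)‖ ^ 2

theorem JG_nonneg (c : J → V → ℝ) (w : J → ℝ) (A : Finset V) (f : V → ℝ) :
    0 ≤ JG c w A f := sq_nonneg _

theorem JG_le (c : J → V → ℝ) (w : J → ℝ) (A : Finset V) (f : V → ℝ) :
    JG c w A f ≤ 2 * ∑ k, f k ^ 2 := by
  rw [← normsq_tg (J := J)]
  exact pow_le_pow_left₀ (norm_nonneg _)
    (Submodule.norm_starProjection_apply_le (Sp (bg c w) A) (tg J f)) 2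

/-- value of the quadratic functional -/
noncomputable def qv (c : J → V → ℝ) (w : J → ℝ) (f u : V → ℝ) : ℝ :=
  2 * ∑ k, f k * u k - ∑ j, w j * rs c u j ^ 2 - ∑ k, u k ^ 2 / 2

theorem JG_ge (c : J → V → ℝ) {w : J → ℝ} (hw : ∀ j, 0 ≤ w j) (A : Finset V) (f : V → ℝ)
    {u : V → ℝ} (hu : ∀ i, i ∉ A → u i = 0) : qv c w f u ≤ JG c w A f := by
  set h := ∑ i, u i • bg c w i with hh
  set W := Sp (bg c w) A with hW
  set θ := tg J f with hθ
  have hmem : h ∈ W := by
    refine W.sum_mem fun i _ => ?_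
    by_cases hi : i ∈ A
    · exact W.smul_mem _ (mem_Sp _ hi)
    · rw [hu i hi, zero_smul]; exact W.zero_mem
  have h1 : ⟪W.starProjection θ, h⟫ = ⟪θ, h⟫ := by
    have := W.starProjection_inner_eq_zero θ h hmem
    rw [inner_sub_left] at this
    linarith
  have h2 : 0 ≤ ‖W.starProjection θ - h‖ ^ 2 := sq_nonneg _
  rw [← real_inner_self_eq_norm_sq, inner_sub_left, inner_sub_right, inner_sub_right,
    real_inner_comm (W.starProjection θ) h, h1, real_inner_self_eq_norm_sq,
    real_inner_self_eq_norm_sq] at h2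
  have h3 : ⟪θ, h⟫ = ∑ k, f k * u k := inner_tg c w f u
  have h4 : ‖h‖ ^ 2 = ∑ j, w j * rs c u j ^ 2 + ∑ k, u k ^ 2 / 2 := normsq_combg c hw u
  have e0 : JG c w A f = ‖W.starProjection θ‖ ^ 2 := rfl
  rw [e0]
  unfold qv
  rw [h3, h4] at h2
  linarith

theorem JG_eq (c : J → V → ℝ) {w : J → ℝ} (hw : ∀ j, 0 ≤ w j) (A : Finset V) (f : V → ℝ) :
    ∃ u : V → ℝ, (∀ i, i ∉ A → u i = 0) ∧ JG c w A f = qv c w f u := by
  set W := Sp (bg c w) A with hW
  set θ := tg J f with hθ
  have hPU : W.starProjection θ ∈ Submodule.span ℝ (bg c w '' (A : Set V)) :=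
    W.starProjection_apply_mem θ
  rw [Submodule.mem_span_image_finset_iff_exists_fun'] at hPU
  obtain ⟨g, hg⟩ := hPU
  set u : V → ℝ := fun i => if i ∈ A then g i else 0 with hu
  refine ⟨u, fun i hi => by simp [hu, hi], ?_⟩
  have hh : ∑ i, u i • bg c w i = W.starProjection θ := by
    rw [← hg]
    simp only [hu, ite_smul, zero_smul]
    rw [← Finset.sum_filter]
    congr 1
    ext i; simp
  have h3 : ⟪θ, ∑ i, u i • bg c w i⟫ = ∑ k, f k * u k := inner_tg c w f u
  have h4 : ‖∑ i, u i • bg c w i‖ ^ 2 = ∑ j, w j * rs c u j ^ 2 + ∑ k, u k ^ 2 / 2 :=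
    normsq_combg c hw u
  rw [hh] at h3 h4
  have h5 : ⟪θ, W.starProjection θ⟫ = ‖W.starProjection θ‖ ^ 2 := by
    rw [inner_proj, real_inner_self_eq_norm_sq]
  have e0 : JG c w A f = ‖W.starProjection θ‖ ^ 2 := rfl
  rw [e0]
  unfold qv
  rw [h5] at h3
  linarith

theorem JG_mono (c : J → V → ℝ) (w : J → ℝ) {A A' : Finset V} (h : A' ⊆ A) (f : V → ℝ) :
    JG c w A' f ≤ JG c w A f := proj_mono (Sp_mono _ h) _

theorem JG_zero (c : J → V → ℝ) {w : J → ℝ} (hw : ∀ j, 0 ≤ w j) (A : Finset V) :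
    JG c w A (fun _ => 0) = 0 := by
  have h1 := JG_le c w A (fun _ : V => (0 : ℝ))
  have h2 := JG_nonneg c w A (fun _ : V => (0 : ℝ))
  have h3 : ∑ k : V, (fun _ : V => (0 : ℝ)) k ^ 2 = 0 := by simp
  rw [h3] at h1
  linarith

/-- comparison of two weight systems and functionals -/
theorem JG_cmp (c : J → V → ℝ) {w w' : J → ℝ} (hw : ∀ j, 0 ≤ w j) (hw' : ∀ j, 0 ≤ w' j)
    (A : Finset V) (f f' : V → ℝ) {C : ℝ} (h : ∀ u, qv c w' f' u ≤ qv c w f u + C) :
    JG c w' A f' ≤ JG c w A f + C := by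
  obtain ⟨u, hu, he⟩ := JG_eq c hw' A f'
  have := JG_ge c hw A f hu
  rw [he]
  linarith [h u]

theorem JG_weight_mono (c : J → V → ℝ) {w w' : J → ℝ} (hw : ∀ j, 0 ≤ w j) (hww : ∀ j, w j ≤ w' j)
    (A : Finset V) (f : V → ℝ) : JG c w' A f ≤ JG c w A f := by
  have h := JG_cmp c hw (fun j => (hw j).trans (hww j)) A f f (C := 0) (fun u => by
    unfold qv
    have : ∑ j, w j * rs c u j ^ 2 ≤ ∑ j, w' j * rs c u j ^ 2 :=
      Finset.sum_le_sum fun j _ => mul_le_mul_of_nonneg_right (hww j) (sq_nonneg _)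
    linarith)
  linarith

/-- raising the weight of the row `S` by `W` while the coefficient of `S` in the functional changes
by `r` -/
theorem JG_raise (c : J → V → ℝ) {w : J → ℝ} (hw : ∀ j, 0 ≤ w j) (A : Finset V) (f : V → ℝ)
    (S : J) {W : ℝ} (hW : 0 < W) (r : ℝ) :
    JG c (Function.update w S (w S + W)) A (fun k => f k + r * c S k)
      ≤ JG c w A f + r ^ 2 / W := by
  refine JG_cmp c hw (fun j => ?_) A f _ (fun u => ?_)
  · by_cases hj : j = S
    · subst hj
      rw [Function.update_self]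
      have := hw j
      linarith
    · rw [Function.update_of_ne hj]; exact hw j
  · unfold qv
    have e1 : ∑ k, (f k + r * c S k) * u k = ∑ k, f k * u k + r * rs c u S := by
      unfold rs
      rw [Finset.mul_sum, ← Finset.sum_add_distrib]
      exact Finset.sum_congr rfl fun k _ => by ring
    have e2 : ∑ j, Function.update w S (w S + W) j * rs c u j ^ 2
        = ∑ j, w j * rs c u j ^ 2 + W * rs c u S ^ 2 := by
      have e3 : W * rs c u S ^ 2 = ∑ j, if j = S then W * rs c u S ^ 2 else 0 := by simp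
      rw [e3, ← Finset.sum_add_distrib]
      refine Finset.sum_congr rfl fun j _ => ?_
      by_cases hj : j = S
      · subst hj
        rw [Function.update_self, if_pos rfl]
        ring
      · rw [Function.update_of_ne hj, if_neg hj, add_zero]
    rw [e1, e2]
    have key : 0 ≤ W * (rs c u S - r / W) ^ 2 := by positivity
    have e4 : W * (rs c u S - r / W) ^ 2 = W * rs c u S ^ 2 - 2 * r * rs c u S + r ^ 2 / W := by
      field_simp
      ring
    rw [e4] at key
    linarith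

/-- a multiple of one row of positive weight -/
theorem JG_row (c : J → V → ℝ) {w : J → ℝ} (hw : ∀ j, 0 ≤ w j) (A : Finset V) (S : J) {W : ℝ}
    (hW : 0 < W) (hWS : W ≤ w S) (r : ℝ) :
    JG c w A (fun k => r * c S k) ≤ r ^ 2 / W := by
  have h := JG_cmp c (fun _ => le_refl (0 : ℝ)) hw A (fun _ => 0) (fun k => r * c S k)
    (C := r ^ 2 / W) (fun u => by
      unfold qv
      have e1 : ∑ k, (r * c S k) * u k = r * rs c u S := by
        unfold rs
        rw [Finset.mul_sum]
        exact Finset.sum_congr rfl fun k _ => by ring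
      have e2 : W * rs c u S ^ 2 ≤ ∑ j, w j * rs c u j ^ 2 := by
        refine le_trans (mul_le_mul_of_nonneg_right hWS (sq_nonneg _)) ?_
        exact Finset.single_le_sum (f := fun j => w j * rs c u j ^ 2)
          (fun k _ => mul_nonneg (hw k) (sq_nonneg _)) (Finset.mem_univ S)
      have key : 0 ≤ W * (rs c u S - r / W) ^ 2 := by positivity
      have e4 : W * (rs c u S - r / W) ^ 2
          = W * rs c u S ^ 2 - 2 * r * rs c u S + r ^ 2 / W := by
        field_simp
        ring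
      rw [e4] at key
      rw [e1]
      simp only [zero_mul, Finset.sum_const_zero, mul_zero]
      linarith)
  rw [JG_zero c (fun _ => le_refl _)] at h
  linarith

end Pool.Agent.Helper68.RN
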