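import Pool.Agent.Helper68.RN.RNT
import Pool.Agent.Helper53.BO.Count

/-!
Clusters of raised rows: degrees and the cluster map (Beck-Fiala, MP_e8ee11).
-/

namespace Pool.Agent.Helper68.RN

open Real Pool.Agent.Helper98.BO
open scoped Classical

variable {V J : Type} [Fintype V] [Fintype J]

theorem op_col (c : J → V → ℝ) {D : ℝ}
    (hop : ∀ x : V → ℝ, ∑ j, (∑ i, c j i * x i) ^ 2 ≤ D * ∑ i, x i ^ 2) (i : V) :
    ∑ j, c j i ^ 2 ≤ D := by
  have h := hop (Pi.single i 1)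
  have e1 : ∀ j, ∑ k, c j k * (Pi.single i 1 : V → ℝ) k = c j i := by
    intro j
    rw [Finset.sum_eq_single i]
    · simp
    · intro k _ hk
      rw [Pi.single_eq_of_ne hk, mul_zero]
    · intro hh; exact absurd (Finset.mem_univ _) hh
  have e2 : ∑ k, (Pi.single i 1 : V → ℝ) k ^ 2 = 1 := by
    rw [Finset.sum_eq_single i]
    · simp
    · intro k _ hk
      rw [Pi.single_eq_of_ne hk]; norm_num
    · intro hh; exact absurd (Finset.mem_univ _) hh
  simp only [e1] at h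
  rw [e2, mul_one] at h
  exact h

theorem cr_card (c : J → V → ℝ) {D : ℝ} (hD : 0 ≤ D)
    (hop : ∀ x : V → ℝ, ∑ j, (∑ i, c j i * x i) ^ 2 ≤ D * ∑ i, x i ^ 2)
    (hrow : ∀ j, ∑ i, c j i ^ 2 ≤ 1) {k : ℕ} (hk : 1 ≤ k) (j : J) :
    ((Finset.univ.filter fun j' => Cr c (1 / k) j j').card : ℝ) ≤ D * k ^ 2 + 1 := by
  have hk0 : (0 : ℝ) < k := by exact_mod_cast hk
  have h1 : Finset.univ.filter (fun j' => Cr c (1 / k) j j')
      ⊆ insert j (Finset.univ.filter fun j' => (1 / (k : ℝ)) ^ 2 < (∑ i, c j' i * c j i) ^ 2) := by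
    intro x hx
    rw [Finset.mem_insert, Finset.mem_filter]
    rcases (Finset.mem_filter.1 hx).2 with h | h
    · exact Or.inl h.symm
    · right
      refine ⟨Finset.mem_univ _, ?_⟩
      have e : ∑ i, c x i * c j i = ∑ i, c j i * c x i :=
        Finset.sum_congr rfl fun i _ => mul_comm _ _
      rw [e, ← sq_abs (∑ i, c j i * c x i)]
      exact pow_lt_pow_left₀ h (by positivity) two_ne_zero
  have h2 := Finset.card_le_card h1
  have h3 := h2.trans (Finset.card_insert_le _ _)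
  have h4 := cnt (fun j' => (∑ i, c j' i * c j i) ^ 2) (fun j' => sq_nonneg _)
    (α := (1 / (k : ℝ)) ^ 2) (M := D) (by positivity) (by
      refine (hop (c j)).trans ?_
      have := mul_le_mul_of_nonneg_left (hrow j) hD
      linarith)
  have h5 : ((Finset.univ.filter fun j' => Cr c (1 / k) j j').card : ℝ)
      ≤ ((Finset.univ.filter fun j' => (1 / (k : ℝ)) ^ 2 < (∑ i, c j' i * c j i) ^ 2).card : ℝ)
        + 1 := by exact_mod_cast h3
  have h6 : D / (1 / (k : ℝ)) ^ 2 = D * k ^ 2 := by field_simp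
  rw [h6] at h4
  linarith

/-- linked rows -/
def Lk (c : J → V → ℝ) (a al : ℝ) (j j' : J) : Prop :=
  ∃ u i u', a < c j u ^ 2 ∧ al < c i u ^ 2 ∧ al < c i u' ^ 2 ∧ a < c j' u' ^ 2

omit [Fintype V] [Fintype J] in
theorem Lk_symm (c : J → V → ℝ) (a al : ℝ) (j j' : J) (h : Lk c a al j j') : Lk c a al j' j := by
  obtain ⟨u, i, u', h1, h2, h3, h4⟩ := h
  exact ⟨u', i, u, h4, h3, h2, h1⟩

/-- union bound for cardinalities, real form -/
theorem card_bU {X Y : Type} (A : Finset X) (f : X → Finset Y) {M m : ℝ}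
    (hA : (A.card : ℝ) ≤ M) (hf : ∀ x ∈ A, ((f x).card : ℝ) ≤ m) (hm : 0 ≤ m) :
    ((A.biUnion f).card : ℝ) ≤ M * m := by
  have h1 : ((A.biUnion f).card : ℝ) ≤ ((∑ x ∈ A, (f x).card : ℕ) : ℝ) := by
    exact_mod_cast Finset.card_biUnion_le
  refine h1.trans ?_
  push_cast
  calc ∑ x ∈ A, ((f x).card : ℝ) ≤ ∑ _x ∈ A, m := Finset.sum_le_sum hf
    _ = A.card * m := by rw [Finset.sum_const, nsmul_eq_mul]
    _ ≤ M * m := mul_le_mul_of_nonneg_right hA hm

theorem lk_card (c : J → V → ℝ) {D a al : ℝ} (hD : 0 ≤ D) (ha : 0 < a) (hal : 0 < al)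
    (hrow : ∀ j, ∑ i, c j i ^ 2 ≤ 1) (hcol : ∀ i, ∑ j, c j i ^ 2 ≤ D) (j : J) :
    ((Finset.univ.filter fun j' => Lk c a al j j').card : ℝ)
      ≤ 1 / a * (D / al * (1 / al * (D / a))) := by
  have hr : ∀ (β : ℝ), 0 < β → ∀ i, ((Finset.univ.filter fun u => β < c i u ^ 2).card : ℝ)
      ≤ 1 / β := fun β hβ i => cnt (fun u => c i u ^ 2) (fun u => sq_nonneg _) hβ (hrow i)
  have hc : ∀ (β : ℝ), 0 < β → ∀ u, ((Finset.univ.filter fun i => β < c i u ^ 2).card : ℝ)
      ≤ D / β := fun β hβ u => cnt (fun i => c i u ^ 2) (fun i => sq_nonneg _) hβ (hcol u)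
  have hsub : Finset.univ.filter (fun j' => Lk c a al j j')
      ⊆ (Finset.univ.filter fun u => a < c j u ^ 2).biUnion fun u =>
        (Finset.univ.filter fun i => al < c i u ^ 2).biUnion fun i =>
          (Finset.univ.filter fun u' => al < c i u' ^ 2).biUnion fun u' =>
            Finset.univ.filter fun j' => a < c j' u' ^ 2 := by
    intro x hx
    obtain ⟨u, i, u', h1, h2, h3, h4⟩ := (Finset.mem_filter.1 hx).2
    rw [Finset.mem_biUnion]
    refine ⟨u, Finset.mem_filter.2 ⟨Finset.mem_univ _, h1⟩, ?_⟩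
    rw [Finset.mem_biUnion]
    refine ⟨i, Finset.mem_filter.2 ⟨Finset.mem_univ _, h2⟩, ?_⟩
    rw [Finset.mem_biUnion]
    exact ⟨u', Finset.mem_filter.2 ⟨Finset.mem_univ _, h3⟩,
      Finset.mem_filter.2 ⟨Finset.mem_univ _, h4⟩⟩
  have h1 := Finset.card_le_card hsub
  refine le_trans (Nat.cast_le.2 h1) ?_
  refine card_bU _ _ (hr a ha j) (fun u _ => ?_) (by positivity)
  refine card_bU _ _ (hc al hal u) (fun i _ => ?_) (by positivity)
  exact card_bU _ _ (hr al hal i) (fun u' _ => hc a ha u') (by positivity)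

/-- the family of test sets and the cluster map on the rows -/
theorem rn_clusters (c : J → V → ℝ) {D a al : ℝ} {k : ℕ} (hD : 0 ≤ D) (ha : 0 < a)
    (hal : 0 < al) (hk : 1 ≤ k)
    (hop : ∀ x : V → ℝ, ∑ j, (∑ i, c j i * x i) ^ 2 ≤ D * ∑ i, x i ^ 2)
    (hrow : ∀ j, ∑ i, c j i ^ 2 ≤ 1) :
    ∃ W : Finset (Finset J),
      (W.card : ℝ) ≤ Fintype.card J
        * (1 + (D * k ^ 2 + 1) + 1 / a * (D / al * (1 / al * (D / a)))) ^ (6 * k) ∧
      (∀ S ∈ W, S.card = k + 1 ∧ Ind (Cr c (1 / k)) S) ∧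
      ∀ R : Finset J, (∀ S ∈ W, ∃ j ∈ S, j ∉ R) →
        ∃ g : J → J, (∀ j j', j ∈ R → j' ∈ R → Lk c a al j j' → g j = g j') ∧
          ∀ v, ((R.filter fun j => g j = v).card : ℝ) ≤ (1 + (D * k ^ 2 + 1)) * k := by
  set dw := ⌊D * (k : ℝ) ^ 2 + 1⌋₊ with hdw
  set E : ℝ := 1 / a * (D / al * (1 / al * (D / a))) with hE
  have hE0 : 0 ≤ E := by positivity
  set ds := ⌊D * (k : ℝ) ^ 2 + 1 + E⌋₊ with hds
  have hcard : ∀ (R : J → J → Prop) (x : J), Set.ncard {b | R x b}
      = (Finset.univ.filter (R x)).card := by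
    intro R x
    rw [← Set.ncard_coe_finset]
    congr 1
    ext b
    simp
  obtain ⟨W0, w1, w2, w3⟩ := Pool.Agent.Helper53.BO.stcount_proof J (Cr c (1 / k))
    (fun x y => Cr c (1 / k) x y ∨ Lk c a al x y) dw ds k (Cr_symm c _)
    (fun x y h => h.imp (Cr_symm c _ _ _) (Lk_symm c _ _ _ _)) (fun x y h => Or.inl h)
    (fun x => by
      rw [hcard]
      exact Nat.le_floor (cr_card c hD hop hrow hk x))
    (fun x => by
      rw [hcard (fun x y => Cr c (1 / k) x y ∨ Lk c a al x y)]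
      refine Nat.le_floor ?_
      have h1 : (Finset.univ.filter fun y => Cr c (1 / k) x y ∨ Lk c a al x y)
          ⊆ (Finset.univ.filter fun y => Cr c (1 / k) x y)
            ∪ Finset.univ.filter fun y => Lk c a al x y := by
        intro y hy
        rw [Finset.mem_union, Finset.mem_filter, Finset.mem_filter]
        rcases (Finset.mem_filter.1 hy).2 with h | h
        · exact Or.inl ⟨Finset.mem_univ _, h⟩
        · exact Or.inr ⟨Finset.mem_univ _, h⟩
      have h2 := (Finset.card_le_card h1).trans (Finset.card_union_le _ _)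
      have h3 : ((Finset.univ.filter fun y => Cr c (1 / k) x y ∨ Lk c a al x y).card : ℝ)
          ≤ ((Finset.univ.filter fun y => Cr c (1 / k) x y).card : ℝ)
            + ((Finset.univ.filter fun y => Lk c a al x y).card : ℝ) := by exact_mod_cast h2
      have h4 := cr_card c hD hop hrow hk x
      have h5 := lk_card c hD ha hal hrow (op_col c hop) x
      rw [← hE] at h5
      refine le_trans (le_of_eq ?_) (h3.trans (show _ ≤ D * (k : ℝ) ^ 2 + 1 + E by linarith))
      congr!)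
  have hdwr : (dw : ℝ) ≤ D * (k : ℝ) ^ 2 + 1 := Nat.floor_le (by positivity)
  have hdsr : (ds : ℝ) ≤ D * (k : ℝ) ^ 2 + 1 + E := Nat.floor_le (by positivity)
  -- choose subsets of size k + 1
  have hch : ∀ T : Finset J, ∃ S : Finset J, (k + 1 ≤ T.card → S ⊆ T ∧ S.card = k + 1) := by
    intro T
    by_cases h : k + 1 ≤ T.card
    · obtain ⟨S, h1, h2⟩ := Finset.exists_subset_card_eq h
      exact ⟨S, fun _ => ⟨h1, h2⟩⟩
    · exact ⟨∅, fun h' => absurd h' h⟩
  choose φ hφ using hch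
  refine ⟨W0.image φ, ?_, ?_, ?_⟩
  · have h1 : ((W0.image φ).card : ℝ) ≤ (W0.card : ℝ) := by exact_mod_cast Finset.card_image_le
    have h2 : (W0.card : ℝ) ≤ Fintype.card J * ((1 + ds : ℝ) ^ 3) ^ (2 * k) := by
      exact_mod_cast w1
    refine h1.trans (h2.trans ?_)
    rw [← pow_mul, show 3 * (2 * k) = 6 * k by ring]
    apply mul_le_mul_of_nonneg_left _ (Nat.cast_nonneg _)
    apply pow_le_pow_left₀ (by positivity)
    linarith
  · intro S hS
    obtain ⟨T, hT, rfl⟩ := Finset.mem_image.1 hS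
    obtain ⟨h1, h2⟩ := w2 T hT
    obtain ⟨h3, h4⟩ := hφ T h1
    exact ⟨h4, fun x hx y hy hxy => h2 x (h3 hx) y (h3 hy) hxy⟩
  · intro R hR
    obtain ⟨g, g1, g2⟩ := w3 (R : Set J) (fun T hT => by
      obtain ⟨h1, h2⟩ := w2 T hT
      obtain ⟨h3, h4⟩ := hφ T h1
      obtain ⟨j, hj, hj'⟩ := hR (φ T) (Finset.mem_image_of_mem _ hT)
      exact ⟨j, h3 hj, fun h => hj' (Finset.mem_coe.1 h)⟩)
    refine ⟨g, fun j j' hj hj' h => g1 j j' hj hj' (Or.inr h), fun v => ?_⟩
    have h1 := g2 v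
    have e : {u | u ∈ (R : Set J) ∧ g u = v} = ((R.filter fun j => g j = v : Finset J) : Set J) := by
      ext u
      simp
    rw [e, Set.ncard_coe_finset] at h1
    have h2 : ((R.filter fun j => g j = v).card : ℝ) ≤ (1 + dw) * k := by exact_mod_cast h1
    refine h2.trans ?_
    apply mul_le_mul_of_nonneg_right _ (Nat.cast_nonneg _)
    linarith

end Pool.Agent.Helper68.RN
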