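import Pool.Agent.Helper68.RN.RNC
import Pool.Agent.Helper68.RN.FLO
import Pool.Agent.Helper68.RN.HOW
import Pool.Agent.Helper53.BO.HO

/-!
Completion of the partial rounding with random signs inside the clusters and random signs of the
clusters (rows of norm at most one; Beck-Fiala, MP_e8ee11).
-/

namespace Pool.Agent.Helper68.RN

open Real Pool.Agent.Helper98.BO Pool.Agent.Helper53.BO
open scoped Classical

theorem rn_complete {V J : Type} [Fintype V] [Fintype J] (c : J → V → ℝ) (y : V → ℝ)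
    (R : Finset J) (g : J → J) {D N a al m' nr G : ℝ}
    (hN : (Fintype.card V : ℝ) + Fintype.card J + 3 ≤ N)
    (hrow : ∀ j, ∑ i, c j i ^ 2 ≤ 1) (hcol : ∀ i, ∑ j, c j i ^ 2 ≤ D) (hy : ∀ i, |y i| ≤ 1)
    (ha : 0 < a) (hD : 0 ≤ D) (hnr : 0 ≤ nr) (hm' : 0 ≤ m')
    (hF : ∀ u, |y u| < 1 → ∃ j ∈ R, a < c j u ^ 2)
    (hg : ∀ j j', j ∈ R → j' ∈ R → Lk c a al j j' → g j = g j')
    (hgc : ∀ v, ((R.filter fun j => g j = v).card : ℝ) ≤ nr)
    (hsm : ∀ j, ∀ U : Finset V, (∀ u ∈ U, ∃ i ∈ R, a < c i u ^ 2) →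
      ∑ u ∈ U, (if c j u ^ 2 ≤ al then c j u ^ 2 else 0) < 2 * m')
    (hpar : 4 * (nr / a) * m' * log (8 * N) ≤ 1) (hG : 0 ≤ G) (hG2 : 2 ≤ G ^ 2)
    (hGM : 2 * (nr / a * D) * exp (-(G ^ 2 / 2)) < 1) :
    ∃ χ : V → ℝ, (∀ i, |χ i| = 1) ∧ (∀ i, |y i| = 1 → χ i = y i) ∧
      ∀ j, |∑ i, c j i * (χ i - y i)| ≤ 2 * (G + 1) := by
  have hcV : (0 : ℝ) ≤ Fintype.card V := Nat.cast_nonneg _
  have hcJ : (0 : ℝ) ≤ Fintype.card J := Nat.cast_nonneg _
  set ge : V → Option J := fun u => if h : ∃ j ∈ R, a < c j u ^ 2 then some (g h.choose)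
    else none with hge
  have hge1 : ∀ u, |y u| < 1 → ∃ i ∈ R, a < c i u ^ 2 ∧ ge u = some (g i) := by
    intro u hu
    have h := hF u hu
    refine ⟨h.choose, h.choose_spec.1, h.choose_spec.2, ?_⟩
    simp only [hge]
    rw [dif_pos h]
  have hcardK : ∀ (v : Option J) (K : Finset V), (∀ u ∈ K, |y u| < 1 ∧ ge u = v) →
      (K.card : ℝ) ≤ nr / a := by
    intro v K hK
    rcases v with _ | v
    · have : K = ∅ := by
        rw [Finset.eq_empty_iff_forall_notMem]
        intro u hu
        obtain ⟨h1, h2⟩ := hK u hu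
        obtain ⟨i, _, _, h3⟩ := hge1 u h1
        rw [h3] at h2
        exact absurd h2 (by simp)
      rw [this]
      simp only [Finset.card_empty, Nat.cast_zero]
      positivity
    · have hsub : K ⊆ (R.filter fun j => g j = v).biUnion fun i =>
          Finset.univ.filter fun u => a < c i u ^ 2 := by
        intro u hu
        obtain ⟨h1, h2⟩ := hK u hu
        obtain ⟨i, hi, h4, h3⟩ := hge1 u h1
        rw [h3] at h2
        rw [Finset.mem_biUnion]
        exact ⟨i, Finset.mem_filter.2 ⟨hi, Option.some_injective _ h2⟩,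
          Finset.mem_filter.2 ⟨Finset.mem_univ _, h4⟩⟩
      refine le_trans (Nat.cast_le.2 (Finset.card_le_card hsub)) ?_
      refine (card_bU _ _ (hgc v) (fun i _ => cnt (fun u => c i u ^ 2)
        (fun u => sq_nonneg _) ha (hrow i)) (by positivity)).trans (le_of_eq ?_)
      ring
  have hnra : 0 ≤ nr / a := by positivity
  refine flo c y ge (fun j v => ∃ u, |y u| < 1 ∧ ge u = v ∧ al < c j u ^ 2)
    (fun v K e => ∀ j, |∑ u ∈ K, c j u * e u| ≤ G) hG hy ?_ ?_ ?_ ?_
  · rintro j v v' ⟨u, hu1, hu2, hu3⟩ ⟨u', hu1', hu2', hu3'⟩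
    obtain ⟨i, hi, hi1, hi2⟩ := hge1 u hu1
    obtain ⟨i', hi', hi1', hi2'⟩ := hge1 u' hu1'
    rw [← hu2, ← hu2', hi2, hi2', hg i i' hi hi' ⟨u, j, u', hi1, hu3, hu3', hi1'⟩]
  · intro v K hK
    obtain ⟨e, he1, he2⟩ := how (I := {u // u ∈ K}) (J := J) (fun j u => c j u.1) (G := G)
      (M := nr / a * D) (fun j => by
        rw [Finset.sum_coe_sort K (fun u => c j u ^ 2)]
        exact (Finset.sum_le_sum_of_subset_of_nonneg (Finset.subset_univ _)
          fun _ _ _ => sq_nonneg _).trans (hrow j)) (by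
        rw [Finset.sum_comm]
        calc ∑ u : {u // u ∈ K}, ∑ j, c j u.1 ^ 2 ≤ ∑ _u : {u // u ∈ K}, D :=
              Finset.sum_le_sum fun u _ => hcol u.1
          _ = K.card * D := by
              rw [Finset.sum_const, Finset.card_univ, Fintype.card_coe, nsmul_eq_mul]
          _ ≤ nr / a * D := by
              exact mul_le_mul_of_nonneg_right (hcardK v K hK) hD) hG hG2 hGM
    refine ⟨fun u => if h : u ∈ K then e ⟨u, h⟩ else 1, fun i => ?_, fun j => ?_⟩
    · dsimp only
      split_ifs with h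
      · exact he1 _
      · exact abs_one
    · refine le_trans (le_of_eq ?_) (he2 j)
      congr 1
      rw [← Finset.sum_coe_sort K]
      refine Finset.sum_congr rfl fun u _ => ?_
      dsimp only
      rw [dif_pos u.2]
  · intro v K e _ _ hP j _
    exact hP j
  · intro U ev hU hev _
    set x : J → Option J → ℝ := fun j v =>
      if ∃ u, |y u| < 1 ∧ ge u = v ∧ al < c j u ^ 2 then 0
      else ∑ u ∈ U.filter (fun u => ge u = v), c j u * ev v u with hx
    have hxs : ∀ j, ∑ v, x j v ^ 2 ≤ nr / a * (2 * m') := by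
      intro j
      have e1 : ∀ v, x j v ^ 2 ≤ nr / a * ∑ u ∈ U.filter (fun u => ge u = v),
          (if c j u ^ 2 ≤ al then c j u ^ 2 else 0) := by
        intro v
        have hnn : 0 ≤ nr / a * ∑ u ∈ U.filter (fun u => ge u = v),
            (if c j u ^ 2 ≤ al then c j u ^ 2 else 0) := by
          apply mul_nonneg hnra
          refine Finset.sum_nonneg fun u _ => ?_
          split_ifs
          · exact sq_nonneg _
          · exact le_refl _
        simp only [hx]
        by_cases hb : ∃ u, |y u| < 1 ∧ ge u = v ∧ al < c j u ^ 2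
        · rw [if_pos hb, zero_pow two_ne_zero]; exact hnn
        · rw [if_neg hb]
          refine (sq_sum_le_card_mul_sum_sq).trans ?_
          have e2 : ∑ u ∈ U.filter (fun u => ge u = v), (c j u * ev v u) ^ 2
              = ∑ u ∈ U.filter (fun u => ge u = v), (if c j u ^ 2 ≤ al then c j u ^ 2 else 0) := by
            refine Finset.sum_congr rfl fun u hu => ?_
            obtain ⟨hu1, hu2⟩ := Finset.mem_filter.1 hu
            have h4 : c j u ^ 2 ≤ al := by
              by_contra hcon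
              exact hb ⟨u, hU u hu1, hu2, not_le.1 hcon⟩
            rw [if_pos h4, mul_pow, ← sq_abs (ev v u), hev v u]
            ring
          rw [e2]
          apply mul_le_mul_of_nonneg_right
          · exact hcardK v _ (fun u hu => ⟨hU u (Finset.mem_filter.1 hu).1,
              (Finset.mem_filter.1 hu).2⟩)
          · refine Finset.sum_nonneg fun u _ => ?_
            split_ifs
            · exact sq_nonneg _
            · exact le_refl _
      calc ∑ v, x j v ^ 2 ≤ ∑ v, nr / a * ∑ u ∈ U.filter (fun u => ge u = v),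
            (if c j u ^ 2 ≤ al then c j u ^ 2 else 0) := Finset.sum_le_sum fun v _ => e1 v
        _ = nr / a * ∑ u ∈ U, (if c j u ^ 2 ≤ al then c j u ^ 2 else 0) := by
            rw [← Finset.mul_sum, Finset.sum_fiberwise]
        _ ≤ nr / a * (2 * m') :=
            mul_le_mul_of_nonneg_left (hsm j U fun u hu => hF u (hU u hu)).le hnra
    obtain ⟨s, hs1, hs2⟩ := ho_proof (Option J) J x (nr / a * (2 * m')) hxs
    have hs3 : ∀ j, |∑ v, x j v * s v| ≤ 1 := fun j => (hs2 j).trans ?_
    · refine ⟨s, hs1, fun j => ?_⟩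
      have h := hs3 j
      simp only [hx] at h
      convert h
    rw [Real.sqrt_le_one]
    have h1 : Real.log (2 * Fintype.card J + 2) ≤ Real.log (8 * N) :=
      Real.log_le_log (by linarith) (by linarith)
    have h2 : 0 ≤ nr / a * (2 * m') := by positivity
    calc 2 * (nr / a * (2 * m')) * Real.log (2 * Fintype.card J + 2)
        ≤ 2 * (nr / a * (2 * m')) * Real.log (8 * N) :=
          mul_le_mul_of_nonneg_left h1 (by positivity)
      _ = 4 * (nr / a) * m' * log (8 * N) := by ring
      _ ≤ 1 := hpar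

end Pool.Agent.Helper68.RN
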