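import Mathlib

/-!
Tuples without conflicts inside a heavy set (Beck-Fiala, MP_e8ee11).
-/

namespace Pool.Agent.Helper68.RN

open scoped Classical

/-- tuple in `A` without conflicts -/
def Gd {X : Type} (R : X → X → Prop) (A : Finset X) {k : ℕ} (f : Fin k → X) : Prop :=
  (∀ r, f r ∈ A) ∧ ∀ r s, r ≠ s → ¬ R (f r) (f s)

theorem Gd_cons {X : Type} {R : X → X → Prop} (hR : ∀ x y, R x y → R y x) {A : Finset X} {k : ℕ}
    {f : Fin k → X} (hf : Gd R A f) {x : X} (hx : x ∈ A) (h : ∀ s, ¬ R x (f s)) :
    Gd R A (Fin.cons x f : Fin (k + 1) → X) := by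
  constructor
  · intro r
    refine Fin.cases ?_ (fun i => ?_) r
    · rw [Fin.cons_zero]; exact hx
    · rw [Fin.cons_succ]; exact hf.1 i
  · intro r s
    refine Fin.cases ?_ (fun i => ?_) r
    · refine Fin.cases ?_ (fun j => ?_) s
      · intro h0; exact absurd rfl h0
      · intro _
        rw [Fin.cons_zero, Fin.cons_succ]; exact h j
    · refine Fin.cases ?_ (fun j => ?_) s
      · intro _
        rw [Fin.cons_zero, Fin.cons_succ]
        exact fun h1 => h i (hR _ _ h1)
      · intro hne
        rw [Fin.cons_succ, Fin.cons_succ]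
        exact hf.2 i j (fun h1 => hne (by rw [h1]))

theorem tup {X : Type} [Fintype X] (w : X → ℝ) (hw : ∀ x, 0 ≤ w x) (R : X → X → Prop)
    (hR : ∀ x y, R x y → R y x) (A : Finset X) {m η : ℝ} (hm : 0 ≤ m) (hη : 0 ≤ η)
    (hA : 2 * m ≤ ∑ x ∈ A, w x)
    (hc : ∀ x, ∑ y ∈ A, (if R x y then w y else 0) ≤ η) (k : ℕ) (hk : k * η ≤ m) :
    m ^ k ≤ ∑ f : Fin k → X, if Gd R A f then ∏ r, w (f r) else 0 := by
  induction k with
  | zero =>
    rw [pow_zero, Fintype.sum_unique]
    rw [if_pos]
    · simp
    · exact ⟨fun r => r.elim0, fun r => r.elim0⟩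
  | succ k ih =>
    have hk' : (k : ℝ) * η ≤ m := by
      refine le_trans ?_ hk
      push_cast
      nlinarith
    have ih' := ih hk'
    rw [← (Fin.consEquiv (fun _ : Fin (k + 1) => X)).sum_comp, Fintype.sum_prod_type_right]
    have key : ∀ f : Fin k → X, m * (if Gd R A f then ∏ r, w (f r) else 0)
        ≤ ∑ x : X, (if Gd R A ((Fin.consEquiv (fun _ : Fin (k + 1) => X)) (x, f)) then
          ∏ r, w ((Fin.consEquiv (fun _ : Fin (k + 1) => X)) (x, f) r) else 0) := by
      intro f
      by_cases hf : Gd R A f
      swap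
      · rw [if_neg hf, mul_zero]
        refine Finset.sum_nonneg fun x _ => ?_
        split_ifs
        · exact Finset.prod_nonneg fun r _ => hw _
        · exact le_refl _
      rw [if_pos hf]
      have hp : 0 ≤ ∏ r, w (f r) := Finset.prod_nonneg fun r _ => hw _
      have h1 : ∀ x : X, (∏ r, w (f r)) * ((if x ∈ A then w x else 0)
          - ∑ s, (if x ∈ A ∧ R (f s) x then w x else 0))
          ≤ (if Gd R A ((Fin.consEquiv (fun _ : Fin (k + 1) => X)) (x, f)) then
          ∏ r, w ((Fin.consEquiv (fun _ : Fin (k + 1) => X)) (x, f) r) else 0) := by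
        intro x
        have e0 : (Fin.consEquiv (fun _ : Fin (k + 1) => X)) (x, f)
            = (Fin.cons x f : Fin (k + 1) → X) := rfl
        rw [e0]
        have hpr : ∏ r, w ((Fin.cons x f : Fin (k + 1) → X) r) = w x * ∏ r, w (f r) := by
          rw [Fin.prod_univ_succ]
          simp
        have hnn : 0 ≤ (if Gd R A (Fin.cons x f : Fin (k + 1) → X) then
            ∏ r, w ((Fin.cons x f : Fin (k + 1) → X) r) else 0) := by
          split_ifs
          · exact Finset.prod_nonneg fun r _ => hw _
          · exact le_refl _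
        have hsn : 0 ≤ ∑ s, (if x ∈ A ∧ R (f s) x then w x else 0) := by
          refine Finset.sum_nonneg fun s _ => ?_
          split_ifs
          · exact hw x
          · exact le_refl _
        by_cases hx : x ∈ A
        swap
        · rw [if_neg hx]
          refine le_trans ?_ hnn
          apply mul_nonpos_of_nonneg_of_nonpos hp
          linarith
        rw [if_pos hx]
        by_cases hs : ∃ s, R (f s) x
        · obtain ⟨s, hs⟩ := hs
          refine le_trans ?_ hnn
          apply mul_nonpos_of_nonneg_of_nonpos hp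
          have : w x ≤ ∑ s, (if x ∈ A ∧ R (f s) x then w x else 0) := by
            refine le_trans (le_of_eq ?_) (Finset.single_le_sum
              (f := fun s => if x ∈ A ∧ R (f s) x then w x else 0) (fun s _ => ?_)
              (Finset.mem_univ s))
            · rw [if_pos ⟨hx, hs⟩]
            · split_ifs
              · exact hw x
              · exact le_refl _
          linarith
        · push Not at hs
          have hG := Gd_cons hR hf hx (fun s h => hs s (hR _ _ h))
          rw [if_pos hG, hpr, mul_comm (w x)]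
          apply mul_le_mul_of_nonneg_left _ hp
          linarith
      refine le_trans ?_ (Finset.sum_le_sum fun x _ => h1 x)
      rw [← Finset.mul_sum, mul_comm m]
      apply mul_le_mul_of_nonneg_left _ hp
      rw [Finset.sum_sub_distrib, Finset.sum_comm]
      have h2 : ∑ x, (if x ∈ A then w x else 0) = ∑ x ∈ A, w x := by
        rw [Finset.sum_ite_mem, Finset.univ_inter]
      have h3 : ∀ s : Fin k, ∑ x, (if x ∈ A ∧ R (f s) x then w x else 0) ≤ η := by
        intro s
        refine le_trans (le_of_eq ?_) (hc (f s))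
        rw [← Finset.univ_inter A, ← Finset.sum_ite_mem, Finset.univ_inter]
        refine Finset.sum_congr rfl fun x _ => ?_
        by_cases hx : x ∈ A
        · by_cases hr : R (f s) x
          · rw [if_pos ⟨hx, hr⟩, if_pos hx, if_pos hr]
          · rw [if_neg (fun h => hr h.2), if_pos hx, if_neg hr]
        · rw [if_neg (fun h => hx h.1), if_neg hx]
      have h4 : ∑ s : Fin k, ∑ x, (if x ∈ A ∧ R (f s) x then w x else 0) ≤ k * η := by
        calc _ ≤ ∑ _s : Fin k, η := Finset.sum_le_sum fun s _ => h3 s
          _ = k * η := by simp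
      rw [h2]
      linarith
    calc m ^ (k + 1) = m * m ^ k := by ring
      _ ≤ m * ∑ f : Fin k → X, (if Gd R A f then ∏ r, w (f r) else 0) :=
          mul_le_mul_of_nonneg_left ih' hm
      _ = ∑ f : Fin k → X, m * (if Gd R A f then ∏ r, w (f r) else 0) := Finset.mul_sum _ _ _
      _ ≤ _ := Finset.sum_le_sum fun f _ => key f

/-- Markov for finite sums -/
theorem cnt {X : Type} [Fintype X] (f : X → ℝ) (hf : ∀ x, 0 ≤ f x) {M α : ℝ} (hα : 0 < α)
    (hM : ∑ x, f x ≤ M) : ((Finset.univ.filter fun x => α < f x).card : ℝ) ≤ M / α := by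
  rw [le_div_iff₀ hα]
  calc ((Finset.univ.filter fun x => α < f x).card : ℝ) * α
      = ∑ _x ∈ Finset.univ.filter (fun x => α < f x), α := by
        rw [Finset.sum_const, nsmul_eq_mul]
    _ ≤ ∑ x ∈ Finset.univ.filter (fun x => α < f x), f x :=
        Finset.sum_le_sum fun x hx => (Finset.mem_filter.1 hx).2.le
    _ ≤ ∑ x, f x := Finset.sum_le_sum_of_subset_of_nonneg (Finset.subset_univ _)
        fun x _ _ => hf x
    _ ≤ M := hM

end Pool.Agent.Helper68.RN
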