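import Pool.Agent.Helper68.RN.Walk2
import Pool.Agent.Helper68.RN.TUP
import Pool.Agent.Helper98.BO.STst

/-!
The two level walk with the three families of tests used in the theorem on rows of norm one
(Beck-Fiala, MP_e8ee11).
-/

namespace Pool.Agent.Helper68.RN

open Real Pool.Agent.Helper98.BO
open scoped Classical

variable {V J : Type} [Fintype V] [Fintype J]

/-- correlated rows -/
def Cr (c : J → V → ℝ) (δ : ℝ) (j j' : J) : Prop := j = j' ∨ δ < |∑ i, c j i * c j' i|

omit [Fintype J] in
theorem Cr_symm (c : J → V → ℝ) (δ : ℝ) (j j' : J) (h : Cr c δ j j') : Cr c δ j' j := by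
  rcases h with h | h
  · exact Or.inl h.symm
  · right
    refine lt_of_lt_of_le h (le_of_eq ?_)
    congr 1
    exact Finset.sum_congr rfl fun i _ => mul_comm _ _

omit [Fintype J] in
theorem sgn_norm (c : J → V → ℝ) (hrow : ∀ j, ∑ i, c j i ^ 2 ≤ 1) {k : ℕ} (hk : 1 ≤ k)
    {S T : Finset J} (hT : T ⊆ S) (hS : S.card ≤ k + 1) (hI : Ind (Cr c (1 / k)) S) (σ : J → ℝ)
    (hσ : ∀ j, |σ j| = 1) : ∑ i, (∑ j ∈ T, σ j * c j i) ^ 2 ≤ 2 * S.card := by
  have hk0 : (0 : ℝ) < k := by exact_mod_cast hk
  have hTS : T.card ≤ S.card := Finset.card_le_card hT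
  have h1 : ∑ i, (∑ j ∈ T, σ j * c j i) ^ 2
      = ∑ j ∈ T, ∑ j' ∈ T, σ j * σ j' * ∑ i, c j i * c j' i := by
    have e : ∀ i, (∑ j ∈ T, σ j * c j i) ^ 2
        = ∑ j ∈ T, ∑ j' ∈ T, σ j * σ j' * (c j i * c j' i) := by
      intro i
      rw [sq, Finset.sum_mul_sum]
      exact Finset.sum_congr rfl fun j _ => Finset.sum_congr rfl fun j' _ => by ring
    simp only [e]
    rw [Finset.sum_comm]
    refine Finset.sum_congr rfl fun j _ => ?_
    rw [Finset.sum_comm]
    exact Finset.sum_congr rfl fun j' _ => by rw [Finset.mul_sum]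
  rw [h1]
  have h2 : ∀ j ∈ T, ∑ j' ∈ T, σ j * σ j' * ∑ i, c j i * c j' i ≤ 2 := by
    intro j hj
    have h3 : ∀ j' ∈ T, σ j * σ j' * ∑ i, c j i * c j' i ≤ if j' = j then (1 : ℝ) else 1 / (k : ℝ) := by
      intro j' hj'
      refine (le_abs_self _).trans ?_
      rw [abs_mul, abs_mul, hσ, hσ, one_mul, one_mul]
      split_ifs with he
      · subst he
        have e : ∑ i, c j' i * c j' i = ∑ i, c j' i ^ 2 :=
          Finset.sum_congr rfl fun i _ => by ring
        rw [e, abs_of_nonneg (Finset.sum_nonneg fun i _ => sq_nonneg _)]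
        exact hrow j'
      · have := hI j (hT hj) j' (hT hj') (fun h => he h.symm)
        unfold Cr at this
        push Not at this
        exact this.2
    refine (Finset.sum_le_sum h3).trans ?_
    rw [Finset.sum_ite, Finset.sum_const, Finset.sum_const, nsmul_eq_mul, nsmul_eq_mul, mul_one]
    have h4 : T.filter (fun j' => j' = j) = {j} := by
      ext x
      simp only [Finset.mem_filter, Finset.mem_singleton]
      exact ⟨fun h => h.2, fun h => ⟨h ▸ hj, h⟩⟩
    have h5 : (T.filter fun j' => ¬ j' = j).card ≤ k := by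
      have h6 : T.filter (fun j' => ¬ j' = j) ⊆ T.erase j := by
        intro x hx
        rw [Finset.mem_filter] at hx
        exact Finset.mem_erase.2 ⟨hx.2, hx.1⟩
      have h7 := Finset.card_le_card h6
      rw [Finset.card_erase_of_mem hj] at h7
      omega
    rw [h4, Finset.card_singleton]
    have h8 : (((T.filter fun j' => ¬ j' = j).card : ℕ) : ℝ) ≤ k := by exact_mod_cast h5
    have h9 : ((T.filter fun j' => ¬ j' = j).card : ℝ) * (1 / k) ≤ 1 := by
      rw [mul_one_div, div_le_one hk0]; exact h8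
    push_cast
    linarith
  calc _ ≤ ∑ _j ∈ T, (2 : ℝ) := Finset.sum_le_sum h2
    _ = 2 * T.card := by rw [Finset.sum_const, nsmul_eq_mul]; ring
    _ ≤ 2 * S.card := by
      have : (T.card : ℝ) ≤ S.card := by exact_mod_cast hTS
      linarith

/-- small entries of a column -/
noncomputable def w1 (c : J → V → ℝ) (a : ℝ) (v : V) (j : J) : ℝ :=
  if c j v ^ 2 ≤ a then c j v ^ 2 else 0

/-- small entries of a row at elements with a large entry in another row -/
noncomputable def w3 (c : J → V → ℝ) (a al : ℝ) (j : J) (x : V × J) : ℝ :=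
  if c j x.1 ^ 2 ≤ al ∧ a < c x.2 x.1 ^ 2 then c j x.1 ^ 2 else 0

omit [Fintype V] [Fintype J] in
theorem w1_nonneg (c : J → V → ℝ) (a : ℝ) (v : V) (j : J) : 0 ≤ w1 c a v j := by
  unfold w1
  split_ifs
  · exact sq_nonneg _
  · exact le_refl _

omit [Fintype V] [Fintype J] in
theorem w3_nonneg (c : J → V → ℝ) (a al : ℝ) (j : J) (x : V × J) : 0 ≤ w3 c a al j x := by
  unfold w3
  split_ifs
  · exact sq_nonneg _
  · exact le_refl _

/-- sum of the test of tuples -/
theorem tuple_le {X : Type} [Fintype X] (w : X → ℝ) (hw : ∀ x, 0 ≤ w x) {M m q : ℝ} (hm : 0 < m)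
    (hq : 0 ≤ q) (hM : ∑ x, w x ≤ M) (hMq : 2 * M * q ≤ m) (k : ℕ) (P : (Fin k → X) → Prop) :
    ∑ f : Fin k → X, (if P f then (2 / m) ^ k * ∏ r, w (f r) else 0) * q ^ k ≤ 1 := by
  have hS0 : 0 ≤ ∑ x, w x := Finset.sum_nonneg fun x _ => hw x
  calc ∑ f : Fin k → X, (if P f then (2 / m) ^ k * ∏ r, w (f r) else 0) * q ^ k
      ≤ ∑ f : Fin k → X, (2 / m) ^ k * (∏ r, w (f r)) * q ^ k := by
        refine Finset.sum_le_sum fun f _ => ?_
        apply mul_le_mul_of_nonneg_right _ (by positivity)
        split_ifs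
        · exact le_refl _
        · exact mul_nonneg (by positivity) (Finset.prod_nonneg fun r _ => hw _)
    _ = (2 / m) ^ k * (∑ x, w x) ^ k * q ^ k := by
        rw [Fintype.sum_pow, Finset.mul_sum, Finset.sum_mul]
    _ = (2 * (∑ x, w x) * q / m) ^ k := by
        rw [← mul_pow, ← mul_pow]; congr 1; ring
    _ ≤ 1 := by
        apply pow_le_one₀ (by positivity)
        rw [div_le_one hm]
        refine le_trans ?_ hMq
        gcongr

/-- reflexive conflicts make tuples injective -/
theorem Gd_inj {X Y : Type} {R : X → X → Prop} {A : Finset X} {k : ℕ} {f : Fin k → X}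
    (g : X → Y) (hg : ∀ x y, g x = g y → R x y) (hf : Gd R A f) :
    (Finset.univ.image fun r => g (f r)).card = k := by
  rw [Finset.card_image_of_injective]
  · simp
  · intro r s hrs
    by_contra hne
    exact hf.2 r s hne (hg _ _ hrs)

theorem rn_walk (c : J → V → ℝ) (z : V → ℝ) {D N a al q m m' Δ Wt γ : ℝ} {k : ℕ}
    (W : Finset (Finset J)) (hN : (Fintype.card V : ℝ) + Fintype.card J + 3 ≤ N)
    (hrow : ∀ j, ∑ i, c j i ^ 2 ≤ 1) (hcol : ∀ i, ∑ j, c j i ^ 2 ≤ D) (hz : ∀ i, |z i| ≤ 1)
    (hk : 1 ≤ k) (hkN : 8 * N ≤ 2 ^ k) (ha : 0 < a) (hal : 0 < al) (hm : 0 < m) (hm' : 0 < m')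
    (hD : 0 ≤ D) (hΔ : 0 ≤ Δ)
    (hCd : ∀ j, ((Finset.univ.filter fun j' => Cr c (1 / k) j j').card : ℝ) ≤ Δ)
    (h1 : k * (Δ * a) ≤ m) (h2 : 2 * D * q ≤ m) (h3 : k * (Δ * (al / a)) ≤ m')
    (h4 : 2 * (D / a) * q ≤ m') (h5 : W.card * q ^ (k + 1) ≤ 1 / 8)
    (hW : ∀ S ∈ W, S.card = k + 1 ∧ Ind (Cr c (1 / k)) S)
    (hWt : 1 / 2 ≤ Wt) (hWN : 16 * N * exp (-(Wt / 2)) ≤ 1) (hγ : 0 < γ)
    (hq : q = 2 * exp (-(γ ^ 2 / 12))) :
    ∃ (y : V → ℝ) (R : Finset J), (∀ i, |y i| ≤ 1) ∧ (∀ i, |z i| = 1 → y i = z i) ∧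
      (∀ i, |y i| < 1 → 1 / 2 < ∑ j ∈ R, Wt * c j i ^ 2) ∧
      (∀ j, |∑ i, c j i * (y i - z i)| ≤ γ + 4) ∧
      (∀ S ∈ W, ∃ j ∈ S, j ∉ R) ∧ (∀ v, ∑ j ∈ R, w1 c a v j < 2 * m) ∧
      ∀ j, ∀ U : Finset V, (∀ u ∈ U, ∃ i ∈ R, a < c i u ^ 2) →
        ∑ u ∈ U, (if c j u ^ 2 ≤ al then c j u ^ 2 else 0) < 2 * m' := by
  have hcV : (0 : ℝ) ≤ Fintype.card V := Nat.cast_nonneg _
  have hcJ : (0 : ℝ) ≤ Fintype.card J := Nat.cast_nonneg _
  have hN3 : 3 ≤ N := by linarith
  have hN0 : 0 < N := by linarith
  have hq0 : 0 < q := by rw [hq]; positivity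
  have hk0 : (0 : ℝ) < k := by exact_mod_cast hk
  set Q := Cr c (1 / k) with hQ
  set Q3 : V × J → V × J → Prop := fun x y => Q x.2 y.2 with hQ3
  have hQs : ∀ x y, Q x y → Q y x := fun x y => Cr_symm c _ x y
  have hQ3s : ∀ x y, Q3 x y → Q3 y x := fun x y => Cr_symm c _ x.2 y.2
  -- tests
  set St : (W ⊕ ((V × (Fin k → J)) ⊕ (J × (Fin k → V × J)))) → Finset J := fun t => match t with
    | Sum.inl S => S.1
    | Sum.inr (Sum.inl p) => if Gd Q Finset.univ p.2 then Finset.univ.image p.2 else ∅
    | Sum.inr (Sum.inr p) => if Gd Q3 Finset.univ p.2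
        then Finset.univ.image (fun r => (p.2 r).2) else ∅ with hSt
  set om : (W ⊕ ((V × (Fin k → J)) ⊕ (J × (Fin k → V × J)))) → ℝ := fun t => match t with
    | Sum.inl _ => 1
    | Sum.inr (Sum.inl p) => 1 / (8 * N) * (if Gd Q Finset.univ p.2
        then (2 / m) ^ k * ∏ r, w1 c a p.1 (p.2 r) else 0)
    | Sum.inr (Sum.inr p) => 1 / (8 * N) * (if Gd Q3 Finset.univ p.2
        then (2 / m') ^ k * ∏ r, w3 c a al p.1 (p.2 r) else 0) with hom
  have hom0 : ∀ t, 0 ≤ om t := by
    intro t
    rcases t with S | p | p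
    · exact zero_le_one
    · simp only [hom]
      split_ifs
      · exact mul_nonneg (by positivity) (mul_nonneg (by positivity)
          (Finset.prod_nonneg fun r _ => w1_nonneg _ _ _ _))
      · simp
    · simp only [hom]
      split_ifs
      · exact mul_nonneg (by positivity) (mul_nonneg (by positivity)
          (Finset.prod_nonneg fun r _ => w3_nonneg _ _ _ _ _))
      · simp
  have hcard2 : ∀ f : Fin k → J, Gd Q Finset.univ f → (Finset.univ.image f).card = k :=
    fun f hf => Gd_inj (fun x : J => x) (fun x y h => Or.inl h) hf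
  have hcard3 : ∀ f : Fin k → V × J, Gd Q3 Finset.univ f →
      (Finset.univ.image fun r => (f r).2).card = k :=
    fun f hf => Gd_inj (fun x : V × J => x.2) (fun x y h => Or.inl h) hf
  have hInd2 : ∀ f : Fin k → J, Gd Q Finset.univ f → Ind Q (Finset.univ.image f) := by
    intro f hf x hx y hy hxy
    obtain ⟨r, -, rfl⟩ := Finset.mem_image.1 hx
    obtain ⟨s, -, rfl⟩ := Finset.mem_image.1 hy
    exact hf.2 r s (fun h => hxy (by rw [h]))
  have hInd3 : ∀ f : Fin k → V × J, Gd Q3 Finset.univ f →
      Ind Q (Finset.univ.image fun r => (f r).2) := by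
    intro f hf x hx y hy hxy
    obtain ⟨r, -, rfl⟩ := Finset.mem_image.1 hx
    obtain ⟨s, -, rfl⟩ := Finset.mem_image.1 hy
    exact hf.2 r s (fun h => hxy (by rw [h]))
  have hSn : ∀ t, ∀ T ⊆ St t, ∀ σ : J → ℝ, (∀ j, |σ j| = 1) →
      ∑ i, (∑ j ∈ T, σ j * c j i) ^ 2 ≤ 2 * (St t).card := by
    intro t T hT σ hσ
    rcases t with S | p | p
    · exact sgn_norm c hrow hk hT (hW S.1 S.2).1.le (hW S.1 S.2).2 σ hσ
    · by_cases h : Gd Q Finset.univ p.2
      · simp only [hSt, if_pos h] at hT ⊢
        exact sgn_norm c hrow hk hT ((hcard2 _ h).le.trans (by omega)) (hInd2 _ h) σ hσ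
      · simp only [hSt, if_neg h] at hT ⊢
        rw [Finset.subset_empty.1 hT]
        simp
    · by_cases h : Gd Q3 Finset.univ p.2
      · simp only [hSt, if_pos h] at hT ⊢
        exact sgn_norm c hrow hk hT ((hcard3 _ h).le.trans (by omega)) (hInd3 _ h) σ hσ
      · simp only [hSt, if_neg h] at hT ⊢
        rw [Finset.subset_empty.1 hT]
        simp
  -- sum of the tests
  have hs1 : ∑ v, ∑ f : Fin k → J, om (Sum.inr (Sum.inl (v, f)))
      * q ^ (St (Sum.inr (Sum.inl (v, f)))).card ≤ 1 / 8 := by
    have e : ∀ v, ∑ f : Fin k → J, om (Sum.inr (Sum.inl (v, f)))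
        * q ^ (St (Sum.inr (Sum.inl (v, f)))).card ≤ 1 / (8 * N) := by
      intro v
      have h := tuple_le (w1 c a v) (w1_nonneg c a v) hm hq0.le (M := D) (by
        refine le_trans (Finset.sum_le_sum fun j _ => ?_) (hcol v)
        unfold w1
        split_ifs
        · exact le_refl _
        · exact sq_nonneg _) h2 k (fun f => Gd Q Finset.univ f)
      calc ∑ f : Fin k → J, om (Sum.inr (Sum.inl (v, f)))
          * q ^ (St (Sum.inr (Sum.inl (v, f)))).card
          = 1 / (8 * N) * ∑ f : Fin k → J, (if Gd Q Finset.univ f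
            then (2 / m) ^ k * ∏ r, w1 c a v (f r) else 0) * q ^ k := by
            rw [Finset.mul_sum]
            refine Finset.sum_congr rfl fun f _ => ?_
            simp only [hom, hSt]
            by_cases hf : Gd Q Finset.univ f
            · rw [if_pos hf, if_pos hf, hcard2 f hf]; ring
            · rw [if_neg hf, if_neg hf]; ring
        _ ≤ 1 / (8 * N) * 1 := mul_le_mul_of_nonneg_left h (by positivity)
        _ = _ := mul_one _
    calc _ ≤ ∑ _v : V, 1 / (8 * N) := Finset.sum_le_sum fun v _ => e v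
      _ = Fintype.card V * (1 / (8 * N)) := by
          rw [Finset.sum_const, Finset.card_univ, nsmul_eq_mul]
      _ ≤ N * (1 / (8 * N)) := by
          apply mul_le_mul_of_nonneg_right _ (by positivity)
          linarith
      _ = 1 / 8 := by field_simp
  have hcols : ∀ u, ((Finset.univ.filter fun i => a < c i u ^ 2).card : ℝ) ≤ D / a :=
    fun u => cnt (fun i => c i u ^ 2) (fun i => sq_nonneg _) ha (hcol u)
  have hw3 : ∀ j, ∑ x, w3 c a al j x ≤ D / a := by
    intro j
    rw [Fintype.sum_prod_type]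
    have e : ∀ u, ∑ i, w3 c a al j (u, i) ≤ c j u ^ 2 * (D / a) := by
      intro u
      calc ∑ i, w3 c a al j (u, i) ≤ ∑ i, (if a < c i u ^ 2 then c j u ^ 2 else 0) := by
            refine Finset.sum_le_sum fun i _ => ?_
            unfold w3
            by_cases hb : a < c i u ^ 2
            · rw [if_pos hb]
              split_ifs
              · exact le_refl _
              · exact sq_nonneg _
            · rw [if_neg hb, if_neg (fun h => hb h.2)]
        _ = c j u ^ 2 * ((Finset.univ.filter fun i => a < c i u ^ 2).card : ℝ) := by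
            rw [← Finset.sum_filter, Finset.sum_const, nsmul_eq_mul, mul_comm]
        _ ≤ _ := mul_le_mul_of_nonneg_left (hcols u) (sq_nonneg _)
    calc _ ≤ ∑ u, c j u ^ 2 * (D / a) := Finset.sum_le_sum fun u _ => e u
      _ = (∑ u, c j u ^ 2) * (D / a) := by rw [Finset.sum_mul]
      _ ≤ 1 * (D / a) := mul_le_mul_of_nonneg_right (hrow j) (by positivity)
      _ = _ := one_mul _
  have hs2 : ∑ j, ∑ f : Fin k → V × J, om (Sum.inr (Sum.inr (j, f)))
      * q ^ (St (Sum.inr (Sum.inr (j, f)))).card ≤ 1 / 8 := by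
    have e : ∀ j, ∑ f : Fin k → V × J, om (Sum.inr (Sum.inr (j, f)))
        * q ^ (St (Sum.inr (Sum.inr (j, f)))).card ≤ 1 / (8 * N) := by
      intro j
      have h := tuple_le (w3 c a al j) (w3_nonneg c a al j) hm' hq0.le (hw3 j) h4 k
        (fun f => Gd Q3 Finset.univ f)
      calc ∑ f : Fin k → V × J, om (Sum.inr (Sum.inr (j, f)))
          * q ^ (St (Sum.inr (Sum.inr (j, f)))).card
          = 1 / (8 * N) * ∑ f : Fin k → V × J, (if Gd Q3 Finset.univ f
            then (2 / m') ^ k * ∏ r, w3 c a al j (f r) else 0) * q ^ k := by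
            rw [Finset.mul_sum]
            refine Finset.sum_congr rfl fun f _ => ?_
            simp only [hom, hSt]
            by_cases hf : Gd Q3 Finset.univ f
            · rw [if_pos hf, if_pos hf, hcard3 f hf]; ring
            · rw [if_neg hf, if_neg hf]; ring
        _ ≤ 1 / (8 * N) * 1 := mul_le_mul_of_nonneg_left h (by positivity)
        _ = _ := mul_one _
    calc _ ≤ ∑ _j : J, 1 / (8 * N) := Finset.sum_le_sum fun j _ => e j
      _ = Fintype.card J * (1 / (8 * N)) := by
          rw [Finset.sum_const, Finset.card_univ, nsmul_eq_mul]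
      _ ≤ N * (1 / (8 * N)) := by
          apply mul_le_mul_of_nonneg_right _ (by positivity)
          linarith
      _ = 1 / 8 := by field_simp
  have hs0 : ∑ S : W, om (Sum.inl S) * q ^ (St (Sum.inl S)).card ≤ 1 / 8 := by
    calc ∑ S : W, om (Sum.inl S) * q ^ (St (Sum.inl S)).card
        = ∑ _S : W, q ^ (k + 1) := by
          refine Finset.sum_congr rfl fun S _ => ?_
          simp only [hom, hSt]
          rw [(hW S.1 S.2).1, one_mul]
      _ = W.card * q ^ (k + 1) := by
          rw [Finset.sum_const, nsmul_eq_mul]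
          simp
      _ ≤ 1 / 8 := h5
  have hlast : (Fintype.card J : ℝ) * (2 * exp (-(Wt * 1 ^ 2 / 2))) ≤ 1 / 8 := by
    have e : exp (-(Wt * 1 ^ 2 / 2)) = exp (-(Wt / 2)) := by congr 1; ring
    rw [e]
    have h := mul_le_mul_of_nonneg_right (show (Fintype.card J : ℝ) ≤ N by linarith)
      (exp_pos (-(Wt / 2))).le
    linarith
  have hsum : ∑ t, om t * (2 * exp (-(γ ^ 2 / 12))) ^ (St t).card
      + Fintype.card J * (2 * exp (-(Wt * 1 ^ 2 / 2))) < 1 := by
    rw [← hq, Fintype.sum_sum_type, Fintype.sum_sum_type, Fintype.sum_prod_type,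
      Fintype.sum_prod_type]
    linarith
  obtain ⟨y, R, r1, r2, r3, r4, r5⟩ := walk_two c hWt hγ one_pos hrow St om hom0 hSn hsum hz
  have hsub : ∀ (I : Type) [Fintype I] (φ : I → (W ⊕ ((V × (Fin k → J)) ⊕ (J × (Fin k → V × J))))),
      Function.Injective φ → ∑ x : I, (if St (φ x) ⊆ R then om (φ x) else 0) < 1 := by
    intro I _ φ hφ
    refine lt_of_le_of_lt ?_ r5
    rw [← Finset.sum_image (s := Finset.univ) (g := φ)
      (f := fun t => if St t ⊆ R then om t else 0) (fun x _ y _ h => hφ h)]
    refine Finset.sum_le_sum_of_subset_of_nonneg (Finset.subset_univ _) fun t _ _ => ?_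
    split_ifs
    · exact hom0 t
    · exact le_refl _
  have hpow : ∀ x : ℝ, 0 < x → 1 / (8 * N) * ((2 / x) ^ k * x ^ k) = 2 ^ k / (8 * N) := by
    intro x hx
    rw [← mul_pow, div_mul_cancel₀ _ hx.ne']
    ring
  have hpow1 : 1 ≤ (2 : ℝ) ^ k / (8 * N) := by
    rw [le_div_iff₀ (by positivity), one_mul]; exact hkN
  refine ⟨y, R, r1, r2, r3, fun j => (r4 j).trans (by linarith), fun S hS => ?_, fun v => ?_,
    fun j U hU => ?_⟩
  · by_contra hcon
    push Not at hcon
    have h := hsub Unit (fun _ => Sum.inl ⟨S, hS⟩) (fun _ _ _ => rfl)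
    simp only [hSt, hom, Finset.univ_unique, Finset.sum_singleton] at h
    have hcon' : S ⊆ R := hcon
    rw [if_pos hcon'] at h
    exact lt_irrefl _ h
  · by_contra hcon
    rw [not_lt] at hcon
    have ht := tup (w1 c a v) (w1_nonneg c a v) Q hQs R (η := Δ * a) hm.le (by positivity)
      hcon (fun x => by
        calc ∑ y ∈ R, (if Q x y then w1 c a v y else 0)
            ≤ ∑ y, (if Q x y then w1 c a v y else 0) := by
              refine Finset.sum_le_sum_of_subset_of_nonneg (Finset.subset_univ _) fun y _ _ => ?_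
              split_ifs
              · exact w1_nonneg _ _ _ _
              · exact le_refl _
          _ ≤ ∑ y, (if Q x y then a else 0) := by
              refine Finset.sum_le_sum fun y _ => ?_
              split_ifs
              · unfold w1
                split_ifs with h
                · exact h
                · exact ha.le
              · exact le_refl _
          _ = ((Finset.univ.filter fun y => Q x y).card : ℝ) * a := by
              rw [← Finset.sum_filter, Finset.sum_const, nsmul_eq_mul]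
          _ ≤ Δ * a := mul_le_mul_of_nonneg_right (hCd x) ha.le) k h1
    have h := hsub (Fin k → J) (fun f => Sum.inr (Sum.inl (v, f))) (fun f g hfg => by
      simpa using hfg)
    have hge : 1 / (8 * N) * ((2 / m) ^ k * m ^ k)
        ≤ ∑ f : Fin k → J, (if St (Sum.inr (Sum.inl (v, f))) ⊆ R
          then om (Sum.inr (Sum.inl (v, f))) else 0) := by
      calc 1 / (8 * N) * ((2 / m) ^ k * m ^ k)
          ≤ 1 / (8 * N) * ((2 / m) ^ k * ∑ f : Fin k → J,
            (if Gd Q R f then ∏ r, w1 c a v (f r) else 0)) := by gcongr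
        _ = ∑ f : Fin k → J, (if Gd Q R f
            then 1 / (8 * N) * ((2 / m) ^ k * ∏ r, w1 c a v (f r)) else 0) := by
            rw [Finset.mul_sum, Finset.mul_sum]
            refine Finset.sum_congr rfl fun f _ => ?_
            split_ifs <;> ring
        _ ≤ _ := by
            refine Finset.sum_le_sum fun f _ => ?_
            by_cases hf : Gd Q R f
            · have hf' : Gd Q Finset.univ f := ⟨fun r => Finset.mem_univ _, hf.2⟩
              rw [if_pos hf]
              simp only [hSt, hom]
              rw [if_pos hf', if_pos hf', if_pos]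
              intro x hx
              obtain ⟨r, -, rfl⟩ := Finset.mem_image.1 hx
              exact hf.1 r
            · rw [if_neg hf]
              split_ifs
              · exact hom0 (Sum.inr (Sum.inl (v, f)))
              · exact le_refl _
    rw [hpow m hm] at hge
    linarith
  · by_contra hcon
    rw [not_lt] at hcon
    set A : Finset (V × J) := Finset.univ.filter fun x => x.1 ∈ U ∧ x.2 ∈ R ∧ a < c x.2 x.1 ^ 2
      with hA
    have hmA : ∀ x, x ∈ A ↔ x.1 ∈ U ∧ x.2 ∈ R ∧ a < c x.2 x.1 ^ 2 := fun x => by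
      rw [hA, Finset.mem_filter]
      exact ⟨fun h => h.2, fun h => ⟨Finset.mem_univ _, h⟩⟩
    have hUne : U.Nonempty := by
      rw [Finset.nonempty_iff_ne_empty]
      intro h
      rw [h, Finset.sum_empty] at hcon
      linarith
    obtain ⟨u1, hu1⟩ := hUne
    haveI : Nonempty J := ⟨(hU u1 hu1).choose⟩
    choose! i0 hi0 using hU
    have hAs : ∑ u ∈ U, (if c j u ^ 2 ≤ al then c j u ^ 2 else 0) ≤ ∑ x ∈ A, w3 c a al j x := by
      calc ∑ u ∈ U, (if c j u ^ 2 ≤ al then c j u ^ 2 else 0)
          = ∑ u ∈ U, w3 c a al j (u, i0 u) := by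
            refine Finset.sum_congr rfl fun u hu => ?_
            unfold w3
            have := (hi0 u hu).2
            by_cases hb : c j u ^ 2 ≤ al
            · rw [if_pos hb, if_pos ⟨hb, this⟩]
            · rw [if_neg hb, if_neg (fun h => hb h.1)]
        _ = ∑ x ∈ U.image (fun u => (u, i0 u)), w3 c a al j x := by
            rw [Finset.sum_image]
            intro u _ u' _ h
            exact (Prod.mk.inj h).1
        _ ≤ _ := by
            refine Finset.sum_le_sum_of_subset_of_nonneg ?_ fun x _ _ => w3_nonneg _ _ _ _ _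
            intro x hx
            obtain ⟨u, hu, rfl⟩ := Finset.mem_image.1 hx
            exact (hmA _).2 ⟨hu, hi0 u hu⟩
    have hrows : ∀ i, ((Finset.univ.filter fun u => a < c i u ^ 2).card : ℝ) ≤ 1 / a :=
      fun i => cnt (fun u => c i u ^ 2) (fun u => sq_nonneg _) ha (hrow i)
    have ht := tup (w3 c a al j) (w3_nonneg c a al j) Q3 hQ3s A (η := Δ * (al / a)) hm'.le
      (by positivity) (hcon.trans hAs) (fun x => by
        calc ∑ y ∈ A, (if Q3 x y then w3 c a al j y else 0)
            ≤ ∑ y, (if Q3 x y then w3 c a al j y else 0) := by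
              refine Finset.sum_le_sum_of_subset_of_nonneg (Finset.subset_univ _) fun y _ _ => ?_
              split_ifs
              · exact w3_nonneg _ _ _ _ _
              · exact le_refl _
          _ ≤ ∑ y : V × J, (if Q x.2 y.2 then (if a < c y.2 y.1 ^ 2 then al else 0) else 0) := by
              refine Finset.sum_le_sum fun y _ => ?_
              by_cases hb : Q3 x y
              · have hb' : Q x.2 y.2 := hb
                rw [if_pos hb, if_pos hb']
                unfold w3
                by_cases hc1 : a < c y.2 y.1 ^ 2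
                · rw [if_pos hc1]
                  split_ifs with h
                  · exact h.1
                  · exact hal.le
                · rw [if_neg hc1, if_neg (fun h => hc1 h.2)]
              · have hb' : ¬ Q x.2 y.2 := hb
                rw [if_neg hb, if_neg hb']
          _ = ∑ i, (if Q x.2 i then ((Finset.univ.filter fun u => a < c i u ^ 2).card : ℝ) * al
              else 0) := by
              rw [Fintype.sum_prod_type_right]
              refine Finset.sum_congr rfl fun i _ => ?_
              by_cases hb : Q x.2 i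
              · simp only [if_pos hb]
                rw [← Finset.sum_filter, Finset.sum_const, nsmul_eq_mul]
              · simp only [if_neg hb, Finset.sum_const_zero]
          _ ≤ ∑ i, (if Q x.2 i then al / a else 0) := by
              refine Finset.sum_le_sum fun i _ => ?_
              split_ifs
              · have := mul_le_mul_of_nonneg_right (hrows i) hal.le
                refine this.trans (le_of_eq ?_)
                ring
              · exact le_refl _
          _ = ((Finset.univ.filter fun i => Q x.2 i).card : ℝ) * (al / a) := by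
              rw [← Finset.sum_filter, Finset.sum_const, nsmul_eq_mul]
          _ ≤ Δ * (al / a) := mul_le_mul_of_nonneg_right (hCd x.2) (by positivity)) k h3
    have h := hsub (Fin k → V × J) (fun f => Sum.inr (Sum.inr (j, f))) (fun f g hfg => by
      simpa using hfg)
    have hge : 1 / (8 * N) * ((2 / m') ^ k * m' ^ k)
        ≤ ∑ f : Fin k → V × J, (if St (Sum.inr (Sum.inr (j, f))) ⊆ R
          then om (Sum.inr (Sum.inr (j, f))) else 0) := by
      calc 1 / (8 * N) * ((2 / m') ^ k * m' ^ k)
          ≤ 1 / (8 * N) * ((2 / m') ^ k * ∑ f : Fin k → V × J,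
            (if Gd Q3 A f then ∏ r, w3 c a al j (f r) else 0)) := by gcongr
        _ = ∑ f : Fin k → V × J, (if Gd Q3 A f
            then 1 / (8 * N) * ((2 / m') ^ k * ∏ r, w3 c a al j (f r)) else 0) := by
            rw [Finset.mul_sum, Finset.mul_sum]
            refine Finset.sum_congr rfl fun f _ => ?_
            split_ifs <;> ring
        _ ≤ _ := by
            refine Finset.sum_le_sum fun f _ => ?_
            by_cases hf : Gd Q3 A f
            · have hf' : Gd Q3 Finset.univ f := ⟨fun r => Finset.mem_univ _, hf.2⟩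
              rw [if_pos hf]
              simp only [hSt, hom]
              rw [if_pos hf', if_pos hf', if_pos]
              intro x hx
              obtain ⟨r, -, rfl⟩ := Finset.mem_image.1 hx
              exact ((hmA _).1 (hf.1 r)).2.1
            · rw [if_neg hf]
              split_ifs
              · exact hom0 (Sum.inr (Sum.inr (j, f)))
              · exact le_refl _
    rw [hpow m' hm'] at hge
    linarith

end Pool.Agent.Helper68.RN
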