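import Pool.Agent.Helper68.RN.JG

/-!
Exponential terms and one phase of the walk (module RN of Beck-Fiala, MP_e8ee11).
-/

namespace Pool.Agent.Helper68.RN

open Real Pool.Agent.Helper26.Gsw Pool.Agent.Helper22.LT
open scoped RealInnerProductSpace Classical

variable {V J : Type*} [Fintype V] [Fintype J]

/-- one exponential term -/
noncomputable def tm (c : J → V → ℝ) (w : J → ℝ) (A : Finset V) (f : V → ℝ) (a : ℝ) (x : V → ℝ) :
    ℝ := exp (∑ k, f k * x k + a + JG c w A f / 2)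

theorem tm_pos (c : J → V → ℝ) (w : J → ℝ) (A : Finset V) (f : V → ℝ) (a : ℝ) (x : V → ℝ) :
    0 < tm c w A f a x := exp_pos _

theorem tm_mono (c : J → V → ℝ) (w : J → ℝ) {A A' : Finset V} (h : A' ⊆ A) (f : V → ℝ) (a : ℝ)
    (x : V → ℝ) : tm c w A' f a x ≤ tm c w A f a x := by
  unfold tm
  apply exp_le_exp.2
  have := JG_mono c w h f
  linarith

theorem tm_weight (c : J → V → ℝ) {w w' : J → ℝ} (hw : ∀ j, 0 ≤ w j) (hww : ∀ j, w j ≤ w' j)
    (A : Finset V) (f : V → ℝ) (a : ℝ) (x : V → ℝ) : tm c w' A f a x ≤ tm c w A f a x := by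
  unfold tm
  apply exp_le_exp.2
  have := JG_weight_mono c hw hww A f
  linarith

/-- outcomes of a phase -/
def OutG (c : J → V → ℝ) (w : J → ℝ) (U : Finset V) (p : V) (x : V → ℝ) : Set (V → ℝ) :=
  {y | (∀ i, |y i| ≤ 1) ∧ (∀ i, i ∉ Al U x → y i = x i) ∧ Al U y ⊆ (Al U x).erase p ∧
    ∑ j, w j * (rs c y j - rs c x j) ^ 2 + ∑ k, (y k - x k) ^ 2 / 2 ≤ 4}

/-- the law of a phase -/
theorem phase_tm (c : J → V → ℝ) {w : J → ℝ} (hw : ∀ j, 0 ≤ w j) {U : Finset V} {x : V → ℝ}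
    (hx : ∀ i, |x i| ≤ 1) {p : V} (hp : p ∈ Al U x) (hbp : ∑ j, w j * c j p ^ 2 ≤ 1 / 2) :
    ∃ E : ((V → ℝ) → ℝ) →ₗ[ℝ] ℝ, IsLaw (OutG c w U p x) E ∧
      ∀ f a, E (fun y => tm c w (Al U y) f a y) ≤ tm c w (Al U x) f a x := by
  have hb1 : ‖bg c w p‖ ≤ 1 := by
    have h1 := normsq_bg c hw p
    have h2 : ‖bg c w p‖ ^ 2 ≤ 1 := by rw [h1]; linarith
    nlinarith [norm_nonneg (bg c w p)]
  obtain ⟨E, hE, hb⟩ := phase_main (bg c w) p hb1 hx hp
  refine ⟨E, hE.subset ?_, fun f a => ?_⟩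
  · rintro y ⟨hy1, hy0, hy2, hy3⟩
    refine ⟨hy1, hy0, hy2, ?_⟩
    have h1 : ‖∑ i, (y i - x i) • bg c w i‖ ^ 2 ≤ 4 := by
      nlinarith [norm_nonneg (∑ i, (y i - x i) • bg c w i)]
    rw [normsq_combg c hw (fun i => y i - x i)] at h1
    simpa only [rs_sub] using h1
  · have hfun : (fun y => tm c w (Al U y) f a y)
        = exp (∑ k, f k * x k + a) • tf U (bg c w) (tg J f) x := by
      funext y
      simp only [Pi.smul_apply, smul_eq_mul]
      unfold tm tf mom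
      rw [inner_tg, ← exp_add, ← exp_add]
      congr 1
      have e1 : ∑ k, f k * (y k - x k) = ∑ k, f k * y k - ∑ k, f k * x k := by
        rw [← Finset.sum_sub_distrib]
        exact Finset.sum_congr rfl fun k _ => by ring
      rw [e1]
      unfold JG
      ring
    rw [hfun, map_smul, smul_eq_mul]
    have h2 := mul_le_mul_of_nonneg_left (hb (tg J f)) (exp_pos (∑ k, f k * x k + a)).le
    refine h2.trans (le_of_eq ?_)
    unfold tm JG
    rw [← exp_add]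

theorem out_row {c : J → V → ℝ} {w : J → ℝ} (hw : ∀ j, 0 ≤ w j) {U : Finset V} {p : V}
    {x y : V → ℝ} (hy : y ∈ OutG c w U p x) (j : J) (hj : ∑ k, c j k ^ 2 ≤ 1) :
    |rs c y j - rs c x j| ≤ 3 := by
  have h1 := hy.2.2.2
  have h2 : 0 ≤ ∑ j, w j * (rs c y j - rs c x j) ^ 2 :=
    Finset.sum_nonneg fun k _ => mul_nonneg (hw k) (sq_nonneg _)
  have h3 : ∑ k, (y k - x k) ^ 2 ≤ 8 := by
    have : ∑ k, (y k - x k) ^ 2 / 2 = (∑ k, (y k - x k) ^ 2) / 2 := by rw [Finset.sum_div]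
    linarith
  have h4 : (rs c y j - rs c x j) ^ 2 ≤ (∑ k, c j k ^ 2) * ∑ k, (y k - x k) ^ 2 := by
    rw [← rs_sub]
    unfold rs
    exact Finset.sum_mul_sq_le_sq_mul_sq _ _ _
  have h5 : (rs c y j - rs c x j) ^ 2 ≤ 3 ^ 2 := by
    have h6 : 0 ≤ ∑ k, (y k - x k) ^ 2 := Finset.sum_nonneg fun k _ => sq_nonneg _
    have h7 : (∑ k, c j k ^ 2) * ∑ k, (y k - x k) ^ 2 ≤ 1 * 8 :=
      mul_le_mul hj h3 h6 zero_le_one
    linarith
  exact abs_le_of_sq_le_sq h5 (by norm_num)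

end Pool.Agent.Helper68.RN
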