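import Pool.Agent.Helper68.RN.Tm

/-!
The two level walk (module RN of Beck-Fiala, MP_e8ee11): rows of norm at most one start without
weight, a row whose error reaches `γ` gets the weight `W`.
-/

namespace Pool.Agent.Helper68.RN

open Real Pool.Agent.Helper26.Gsw Pool.Agent.Helper22.LT
open scoped RealInnerProductSpace Classical

set_option linter.unusedSectionVars false

variable {V J X : Type*} [Fintype V] [Fintype J] [Fintype X]

/-- weights: `W` on the raised rows -/
noncomputable def wt (W : ℝ) (R : Finset J) (j : J) : ℝ := if j ∈ R then W else 0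

theorem wt_nonneg {W : ℝ} (hW : 0 ≤ W) (R : Finset J) (j : J) : 0 ≤ wt W R j := by
  unfold wt
  split_ifs
  · exact hW
  · exact le_refl _

theorem wt_insert {W : ℝ} {R : Finset J} {S : J} (hS : S ∉ R) :
    wt W (insert S R) = Function.update (wt W R) S (wt W R S + W) := by
  funext j
  by_cases hj : j = S
  · subst hj
    rw [Function.update_self]
    unfold wt
    rw [if_pos (Finset.mem_insert_self _ _), if_neg hS, zero_add]
  · rw [Function.update_of_ne hj]
    unfold wt
    by_cases h : j ∈ R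
    · rw [if_pos (Finset.mem_insert_of_mem h), if_pos h]
    · rw [if_neg h, if_neg]
      intro h2
      rcases Finset.mem_insert.1 h2 with h3 | h3
      · exact hj h3
      · exact h h3

theorem wt_le_insert {W : ℝ} (hW : 0 ≤ W) (R : Finset J) (S : J) (j : J) :
    wt W R j ≤ wt W (insert S R) j := by
  unfold wt
  by_cases h : j ∈ R
  · rw [if_pos h, if_pos (Finset.mem_insert_of_mem h)]
  · rw [if_neg h]
    split_ifs
    · exact hW
    · exact le_refl _

/-- functional of a sign pattern -/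
noncomputable def fq (c : J → V → ℝ) (θ : ℝ) (S Q : Finset J) (k : V) : ℝ :=
  ∑ j ∈ S, (if j ∈ Q then θ else -θ) * c j k

/-- potential of a test -/
noncomputable def T1 (c : J → V → ℝ) (W θ β : ℝ) (z : V → ℝ) (S : Finset J) (A : Finset V)
    (x : V → ℝ) (R : Finset J) : ℝ :=
  ∑ Q ∈ (S \ R).powerset, tm c (wt W R) A (fq c θ (S \ R) Q)
    (-(∑ k, fq c θ (S \ R) Q k * z k) - β * (S \ R).card) x

theorem T1_nonneg (c : J → V → ℝ) (W θ β : ℝ) (z : V → ℝ) (S : Finset J) (A : Finset V)
    (x : V → ℝ) (R : Finset J) : 0 ≤ T1 c W θ β z S A x R :=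
  Finset.sum_nonneg fun _ _ => (tm_pos _ _ _ _ _ _).le

/-- potential of a row -/
noncomputable def T3 (c : J → V → ℝ) (W μ G : ℝ) (A : Finset V) (x : V → ℝ) (R : Finset J)
    (h : J → ℝ) (j : J) : ℝ :=
  if j ∈ R then tm c (wt W R) A (fun k => μ * c j k) (-(μ * h j) - μ * G) x
      + tm c (wt W R) A (fun k => -μ * c j k) (μ * h j - μ * G) x
    else 2 * exp (-(μ * G) + μ ^ 2 / W / 2)

theorem T3_nonneg (c : J → V → ℝ) (W μ G : ℝ) (A : Finset V) (x : V → ℝ) (R : Finset J)
    (h : J → ℝ) (j : J) : 0 ≤ T3 c W μ G A x R h j := by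
  unfold T3
  split_ifs
  · exact add_nonneg (tm_pos _ _ _ _ _ _).le (tm_pos _ _ _ _ _ _).le
  · positivity

theorem T1_mono (c : J → V → ℝ) (W θ β : ℝ) (z : V → ℝ) (S : Finset J) {A A' : Finset V}
    (hA : A' ⊆ A) (x : V → ℝ) (R : Finset J) :
    T1 c W θ β z S A' x R ≤ T1 c W θ β z S A x R :=
  Finset.sum_le_sum fun _ _ => tm_mono _ _ hA _ _ _

theorem T3_mono (c : J → V → ℝ) (W μ G : ℝ) {A A' : Finset V} (hA : A' ⊆ A) (x : V → ℝ)
    (R : Finset J) (h : J → ℝ) (j : J) : T3 c W μ G A' x R h j ≤ T3 c W μ G A x R h j := by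
  unfold T3
  split_ifs
  · exact add_le_add (tm_mono _ _ hA _ _ _) (tm_mono _ _ hA _ _ _)
  · exact le_refl _

theorem fq_insert_neg (c : J → V → ℝ) (θ : ℝ) {S' Q : Finset J} {S : J} (hS : S ∉ S')
    (hQ : Q ⊆ S') (k : V) :
    fq c θ (insert S S') Q k = fq c θ S' Q k + -θ * c S k := by
  unfold fq
  rw [Finset.sum_insert hS, if_neg (fun h => hS (hQ h))]
  ring

theorem fq_insert_pos (c : J → V → ℝ) (θ : ℝ) {S' Q : Finset J} {S : J} (hS : S ∉ S') (k : V) :
    fq c θ (insert S S') (insert S Q) k = fq c θ S' Q k + θ * c S k := by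
  unfold fq
  rw [Finset.sum_insert hS, if_pos (Finset.mem_insert_self _ _)]
  have e : ∑ j ∈ S', (if j ∈ insert S Q then θ else -θ) * c j k
      = ∑ j ∈ S', (if j ∈ Q then θ else -θ) * c j k := by
    refine Finset.sum_congr rfl fun j hj => ?_
    have hjS : j ≠ S := fun h => hS (h ▸ hj)
    by_cases h : j ∈ Q
    · rw [if_pos h, if_pos (Finset.mem_insert_of_mem h)]
    · rw [if_neg h, if_neg]
      intro h2
      rcases Finset.mem_insert.1 h2 with h3 | h3
      · exact hjS h3
      · exact h h3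
  rw [e]
  ring

/-- raising a row -/
theorem tm_raise (c : J → V → ℝ) {w : J → ℝ} (hw : ∀ j, 0 ≤ w j) (A : Finset V) (f : V → ℝ)
    (a : ℝ) (x z : V → ℝ) (S : J) {W : ℝ} (hW : 0 < W) {θ β : ℝ} (s : ℝ) (hs : s ^ 2 = θ ^ 2)
    (hE : β + θ ^ 2 / W / 2 ≤ s * (rs c x S - rs c z S)) :
    tm c (Function.update w S (w S + W)) A f a x
      ≤ tm c w A (fun k => f k + s * c S k) (a - s * rs c z S - β) x := by
  unfold tm
  apply exp_le_exp.2
  have h1 := JG_raise c hw A (fun k => f k + s * c S k) S hW (-s)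
  have e1 : (fun k => (f k + s * c S k) + -s * c S k) = f := by
    funext k; ring
  rw [e1, neg_sq, hs] at h1
  have e2 : ∑ k, (f k + s * c S k) * x k = ∑ k, f k * x k + s * rs c x S := by
    unfold rs
    rw [Finset.mul_sum, ← Finset.sum_add_distrib]
    exact Finset.sum_congr rfl fun k _ => by ring
  rw [e2]
  linarith

theorem T1_raise (c : J → V → ℝ) {W θ β γ : ℝ} (hW : 0 < W) (hθ : 0 ≤ θ)
    (hβ : β + θ ^ 2 / W / 2 ≤ θ * γ) (z : V → ℝ) (St : Finset J) (A : Finset V) (x : V → ℝ)
    {R : Finset J} {S : J} (hS : S ∉ R) (hE : γ ≤ |rs c x S - rs c z S|) :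
    T1 c W θ β z St A x (insert S R) ≤ T1 c W θ β z St A x R := by
  have hw : ∀ j, 0 ≤ wt W R j := wt_nonneg hW.le R
  by_cases hSt : S ∈ St
  · set S' := St \ insert S R with hS'
    have hSS' : S ∉ S' := fun h => (Finset.mem_sdiff.1 h).2 (Finset.mem_insert_self _ _)
    have hdec : St \ R = insert S S' := by
      ext j
      simp only [hS', Finset.mem_sdiff, Finset.mem_insert]
      constructor
      · rintro ⟨h1, h2⟩
        by_cases h3 : j = S
        · exact Or.inl h3
        · exact Or.inr ⟨h1, fun h4 => h4.elim h3 h2⟩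
      · rintro (h1 | ⟨h1, h2⟩)
        · subst h1
          exact ⟨hSt, hS⟩
        · exact ⟨h1, fun h3 => h2 (Or.inr h3)⟩
    unfold T1
    rw [← hS', hdec, Finset.sum_powerset_insert hSS', ← Finset.sum_add_distrib]
    refine Finset.sum_le_sum fun Q hQ => ?_
    have hQ' := Finset.mem_powerset.1 hQ
    have hcard : ((insert S S').card : ℝ) = S'.card + 1 := by
      rw [Finset.card_insert_of_notMem hSS']; push_cast; ring
    have hz : ∀ (f : V → ℝ) (s : ℝ), ∑ k, (f k + s * c S k) * z k
        = ∑ k, f k * z k + s * rs c z S := by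
      intro f s
      unfold rs
      rw [Finset.mul_sum, ← Finset.sum_add_distrib]
      exact Finset.sum_congr rfl fun k _ => by ring
    have e1 : fq c θ (insert S S') Q = fun k => fq c θ S' Q k + -θ * c S k := by
      funext k
      exact fq_insert_neg c θ hSS' hQ' k
    have e2 : fq c θ (insert S S') (insert S Q) = fun k => fq c θ S' Q k + θ * c S k := by
      funext k
      exact fq_insert_pos c θ hSS' k
    rw [e1, e2, hcard, wt_insert hS]
    simp only [hz]
    set a0 := -(∑ k, fq c θ S' Q k * z k) - β * (S'.card : ℝ) with ha0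
    have key : ∀ s : ℝ, s ^ 2 = θ ^ 2 → |rs c x S - rs c z S| * θ = s * (rs c x S - rs c z S) →
        tm c (Function.update (wt W R) S (wt W R S + W)) A (fq c θ S' Q) a0 x
          ≤ tm c (wt W R) A (fun k => fq c θ S' Q k + s * c S k) (a0 - s * rs c z S - β) x := by
      intro s hs hs2
      refine tm_raise c hw A _ a0 x z S hW s hs ?_
      rw [← hs2]
      have : γ * θ ≤ |rs c x S - rs c z S| * θ := mul_le_mul_of_nonneg_right hE hθ
      linarith
    have ea : ∀ s : ℝ, a0 - s * rs c z S - β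
        = -(∑ k, fq c θ S' Q k * z k + s * rs c z S) - β * ((S'.card : ℝ) + 1) := by
      intro s
      rw [ha0]; ring
    rcases le_total 0 (rs c x S - rs c z S) with h0 | h0
    · have h1 := key θ rfl (by rw [abs_of_nonneg h0]; ring)
      rw [ea] at h1
      have h2 : 0 ≤ tm c (wt W R) A (fun k => fq c θ S' Q k + -θ * c S k)
          (-(∑ k, fq c θ S' Q k * z k + -θ * rs c z S) - β * ((S'.card : ℝ) + 1)) x :=
        (tm_pos _ _ _ _ _ _).le
      linarith
    · have h1 := key (-θ) (by ring) (by rw [abs_of_nonpos h0]; ring)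
      rw [ea] at h1
      have h2 : 0 ≤ tm c (wt W R) A (fun k => fq c θ S' Q k + θ * c S k)
          (-(∑ k, fq c θ S' Q k * z k + θ * rs c z S) - β * ((S'.card : ℝ) + 1)) x :=
        (tm_pos _ _ _ _ _ _).le
      linarith
  · have hdec : St \ insert S R = St \ R := by
      ext j
      simp only [Finset.mem_sdiff, Finset.mem_insert]
      constructor
      · rintro ⟨h1, h2⟩
        exact ⟨h1, fun h3 => h2 (Or.inr h3)⟩
      · rintro ⟨h1, h2⟩
        refine ⟨h1, fun h3 => ?_⟩
        rcases h3 with h3 | h3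
        · exact hSt (h3 ▸ h1)
        · exact h2 h3
    unfold T1
    rw [hdec]
    refine Finset.sum_le_sum fun Q _ => ?_
    exact tm_weight c hw (wt_le_insert hW.le R S) A _ _ x

theorem T3_raise (c : J → V → ℝ) {W μ G : ℝ} (hW : 0 < W) (A : Finset V) (x : V → ℝ)
    {R : Finset J} {S : J} (hS : S ∉ R) (h : J → ℝ) (j : J) :
    T3 c W μ G A x (insert S R) (Function.update h S (rs c x S)) j ≤ T3 c W μ G A x R h j := by
  have hw : ∀ j, 0 ≤ wt W R j := wt_nonneg hW.le R
  by_cases hj : j = S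
  · subst hj
    unfold T3
    rw [if_pos (Finset.mem_insert_self _ _), if_neg hS, Function.update_self]
    have hw' : ∀ k, 0 ≤ wt W (insert j R) k := wt_nonneg hW.le _
    have hwj : W ≤ wt W (insert j R) j := by
      unfold wt
      rw [if_pos (Finset.mem_insert_self _ _)]
    have h1 := JG_row c hw' A j hW hwj μ
    have h2 := JG_row c hw' A j hW hwj (-μ)
    rw [neg_sq] at h2
    have e1 : ∀ s : ℝ, ∑ k, (s * c j k) * x k = s * rs c x j := by
      intro s
      unfold rs
      rw [Finset.mul_sum]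
      exact Finset.sum_congr rfl fun k _ => by ring
    have g1 : tm c (wt W (insert j R)) A (fun k => μ * c j k) (-(μ * rs c x j) - μ * G) x
        ≤ exp (-(μ * G) + μ ^ 2 / W / 2) := by
      unfold tm
      apply exp_le_exp.2
      rw [e1]
      linarith
    have g2 : tm c (wt W (insert j R)) A (fun k => -μ * c j k) (μ * rs c x j - μ * G) x
        ≤ exp (-(μ * G) + μ ^ 2 / W / 2) := by
      unfold tm
      apply exp_le_exp.2
      rw [e1]
      linarith
    linarith
  · unfold T3
    by_cases hR : j ∈ R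
    · rw [if_pos (Finset.mem_insert_of_mem hR), if_pos hR, Function.update_of_ne hj]
      exact add_le_add (tm_weight c hw (wt_le_insert hW.le R S) A _ _ x)
        (tm_weight c hw (wt_le_insert hW.le R S) A _ _ x)
    · rw [if_neg hR, if_neg]
      intro h2
      rcases Finset.mem_insert.1 h2 with h3 | h3
      · exact hj h3
      · exact hR h3

/-- data of the two level walk -/
structure WP (V J X : Type*) [Fintype V] [Fintype J] [Fintype X] where
  c : J → V → ℝ
  W : ℝ
  θ : ℝ
  β : ℝ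
  γ : ℝ
  μ : ℝ
  G : ℝ
  z : V → ℝ
  S : X → Finset J
  om : X → ℝ
  hW : 0 < W
  hθ : 0 ≤ θ
  hβ : β + θ ^ 2 / W / 2 ≤ θ * γ
  hμ : 0 < μ
  hom : ∀ t, 0 ≤ om t
  hrow : ∀ j, ∑ k, c j k ^ 2 ≤ 1

namespace WP

variable (p : WP V J X)

/-- total potential -/
noncomputable def Tot (A : Finset V) (x : V → ℝ) (R : Finset J) (h : J → ℝ) : ℝ :=
  ∑ t, p.om t * T1 p.c p.W p.θ p.β p.z (p.S t) A x R + ∑ j, T3 p.c p.W p.μ p.G A x R h j

theorem Tot_mono {A A' : Finset V} (hA : A' ⊆ A) (x : V → ℝ) (R : Finset J) (h : J → ℝ) :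
    p.Tot A' x R h ≤ p.Tot A x R h := by
  unfold Tot
  apply add_le_add
  · exact Finset.sum_le_sum fun t _ => mul_le_mul_of_nonneg_left (T1_mono _ _ _ _ _ _ hA _ _) (p.hom t)
  · exact Finset.sum_le_sum fun j _ => T3_mono _ _ _ _ hA _ _ _ _

/-- unfrozen columns -/
noncomputable def U (R : Finset J) : Finset V :=
  Finset.univ.filter fun v => ∑ j, wt p.W R j * p.c j v ^ 2 ≤ 1 / 2

theorem mem_U {R : Finset J} {v : V} : v ∈ p.U R ↔ ∑ j, wt p.W R j * p.c j v ^ 2 ≤ 1 / 2 := by
  simp [U]

theorem U_anti {R R' : Finset J} (h : R ⊆ R') : p.U R' ⊆ p.U R := by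
  intro v hv
  rw [mem_U] at hv ⊢
  refine le_trans (Finset.sum_le_sum fun j _ => mul_le_mul_of_nonneg_right ?_ (sq_nonneg _)) hv
  unfold wt
  by_cases h1 : j ∈ R
  · rw [if_pos h1, if_pos (h h1)]
  · rw [if_neg h1]
    split_ifs
    · exact p.hW.le
    · exact le_refl _

theorem Tot_raise (A : Finset V) (x : V → ℝ) {R : Finset J} (h : J → ℝ) {S : J} (hS : S ∉ R)
    (hE : p.γ ≤ |rs p.c x S - rs p.c p.z S|) :
    p.Tot A x (insert S R) (Function.update h S (rs p.c x S)) ≤ p.Tot A x R h := by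
  unfold Tot
  apply add_le_add
  · exact Finset.sum_le_sum fun t _ => mul_le_mul_of_nonneg_left
      (T1_raise p.c p.hW p.hθ p.hβ p.z (p.S t) A x hS hE) (p.hom t)
  · exact Finset.sum_le_sum fun j _ => T3_raise p.c p.hW A x hS h j

/-- raising all rows of a set -/
theorem raise_set (A : Finset V) (x : V → ℝ) (R : Finset J) (h : J → ℝ) (T : Finset J)
    (hT : ∀ S ∈ T, S ∉ R ∧ p.γ ≤ |rs p.c x S - rs p.c p.z S|) :
    p.Tot A x (R ∪ T) (fun j => if j ∈ T then rs p.c x j else h j) ≤ p.Tot A x R h := by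
  induction T using Finset.induction_on with
  | empty => simp
  | insert S T hST ih =>
    have ih' := ih fun S' hS' => hT S' (Finset.mem_insert_of_mem hS')
    refine le_trans (le_of_eq ?_) ((p.Tot_raise A x (R := R ∪ T)
      (fun j => if j ∈ T then rs p.c x j else h j) (S := S) ?_
      (hT S (Finset.mem_insert_self _ _)).2).trans ih')
    · congr 1
      · ext j
        simp only [Finset.mem_union, Finset.mem_insert]
        tauto
      · funext j
        by_cases hj : j = S
        · subst hj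
          rw [Function.update_self, if_pos (Finset.mem_insert_self _ _)]
        · rw [Function.update_of_ne hj]
          by_cases h1 : j ∈ T
          · rw [if_pos (Finset.mem_insert_of_mem h1), if_pos h1]
          · rw [if_neg h1, if_neg]
            intro h2
            rcases Finset.mem_insert.1 h2 with h3 | h3
            · exact hj h3
            · exact h1 h3
    · intro h1
      rcases Finset.mem_union.1 h1 with h2 | h2
      · exact (hT S (Finset.mem_insert_self _ _)).1 h2
      · exact hST h2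

/-- one phase -/
theorem phase_tot {x : V → ℝ} (hx : ∀ i, |x i| ≤ 1) {R : Finset J} {h : J → ℝ} {q : V}
    (hq : q ∈ Al (p.U R) x) (hlt : p.Tot (Al (p.U R) x) x R h < 1) :
    ∃ y ∈ OutG p.c (wt p.W R) (p.U R) q x, p.Tot (Al (p.U R) y) y R h < 1 := by
  have hw : ∀ j, 0 ≤ wt p.W R j := wt_nonneg p.hW.le R
  obtain ⟨E, hE, hb⟩ := phase_tm p.c hw hx hq ((p.mem_U).1 (mem_Al.1 hq).1)
  have hT1 : ∀ t, E (fun y => p.om t * T1 p.c p.W p.θ p.β p.z (p.S t) (Al (p.U R) y) y R)
      ≤ p.om t * T1 p.c p.W p.θ p.β p.z (p.S t) (Al (p.U R) x) x R := by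
    intro t
    have e1 : (fun y => p.om t * T1 p.c p.W p.θ p.β p.z (p.S t) (Al (p.U R) y) y R)
        = p.om t • ∑ Q ∈ (p.S t \ R).powerset, fun y => tm p.c (wt p.W R) (Al (p.U R) y)
          (fq p.c p.θ (p.S t \ R) Q)
          (-(∑ k, fq p.c p.θ (p.S t \ R) Q k * p.z k) - p.β * (p.S t \ R).card) y := by
      funext y
      simp only [Pi.smul_apply, smul_eq_mul, Finset.sum_apply]
      rfl
    rw [e1, map_smul, map_sum, smul_eq_mul]
    refine mul_le_mul_of_nonneg_left ?_ (p.hom t)
    unfold T1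
    exact Finset.sum_le_sum fun Q _ => hb _ _
  have hT3 : ∀ j, E (fun y => T3 p.c p.W p.μ p.G (Al (p.U R) y) y R h j)
      ≤ T3 p.c p.W p.μ p.G (Al (p.U R) x) x R h j := by
    intro j
    by_cases hj : j ∈ R
    · have e1 : (fun y => T3 p.c p.W p.μ p.G (Al (p.U R) y) y R h j)
          = (fun y => tm p.c (wt p.W R) (Al (p.U R) y) (fun k => p.μ * p.c j k)
              (-(p.μ * h j) - p.μ * p.G) y)
            + fun y => tm p.c (wt p.W R) (Al (p.U R) y) (fun k => -p.μ * p.c j k)
              (p.μ * h j - p.μ * p.G) y := by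
        funext y
        unfold T3
        rw [if_pos hj]
        rfl
      rw [e1, map_add]
      unfold T3
      rw [if_pos hj]
      exact add_le_add (hb _ _) (hb _ _)
    · have e1 : (fun y => T3 p.c p.W p.μ p.G (Al (p.U R) y) y R h j)
          = fun _ => 2 * exp (-(p.μ * p.G) + p.μ ^ 2 / p.W / 2) := by
        funext y
        unfold T3
        rw [if_neg hj]
      rw [e1, hE.const]
      unfold T3
      rw [if_neg hj]
  have hEt : E (fun y => p.Tot (Al (p.U R) y) y R h) < 1 := by
    have e1 : (fun y => p.Tot (Al (p.U R) y) y R h)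
        = ∑ t, (fun y => p.om t * T1 p.c p.W p.θ p.β p.z (p.S t) (Al (p.U R) y) y R)
          + ∑ j, fun y => T3 p.c p.W p.μ p.G (Al (p.U R) y) y R h j := by
      funext y
      simp only [Pi.add_apply, Finset.sum_apply]
      rfl
    rw [e1, map_add, map_sum, map_sum]
    refine lt_of_le_of_lt ?_ hlt
    unfold Tot
    exact add_le_add (Finset.sum_le_sum fun t _ => hT1 t) (Finset.sum_le_sum fun j _ => hT3 j)
  obtain ⟨y, hy, hy2⟩ := hE.exists_lt hEt
  exact ⟨y, hy, hy2⟩

/-- invariants -/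
structure Inv (x : V → ℝ) (R : Finset J) (h : J → ℝ) : Prop where
  hx : ∀ i, |x i| ≤ 1
  h1 : ∀ j, j ∉ R → |rs p.c x j - rs p.c p.z j| < p.γ
  h2 : ∀ j, j ∈ R → |h j - rs p.c p.z j| ≤ p.γ + 3
  h4 : ∀ i, |p.z i| = 1 → x i = p.z i

theorem main_induction (n : ℕ) :
    ∀ (x : V → ℝ) (R : Finset J) (h : J → ℝ), (Al (p.U R) x).card ≤ n →
      p.Inv x R h → p.Tot (Al (p.U R) x) x R h < 1 →
      ∃ (y : V → ℝ) (R' : Finset J) (h' : J → ℝ), p.Inv y R' h' ∧
        Al (p.U R') y = ∅ ∧ p.Tot ∅ y R' h' < 1 := by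
  induction n with
  | zero =>
    intro x R h hc hI h3
    have he : Al (p.U R) x = ∅ := Finset.card_eq_zero.1 (Nat.le_zero.1 hc)
    rw [he] at h3
    exact ⟨x, R, h, hI, he, h3⟩
  | succ n ih =>
    intro x R h hc hI h3
    rcases (Al (p.U R) x).eq_empty_or_nonempty with he | ⟨q, hq⟩
    · rw [he] at h3
      exact ⟨x, R, h, hI, he, h3⟩
    · obtain ⟨y, hy, hy4⟩ := p.phase_tot hI.hx hq h3
      set T : Finset J := Finset.univ.filter fun j =>
        j ∉ R ∧ p.γ ≤ |rs p.c y j - rs p.c p.z j| with hT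
      have hTm : ∀ S ∈ T, S ∉ R ∧ p.γ ≤ |rs p.c y S - rs p.c p.z S| := fun S hS => by
        simpa [hT] using hS
      have hr := p.raise_set (Al (p.U R) y) y R h T hTm
      set h' : J → ℝ := fun j => if j ∈ T then rs p.c y j else h j with hh'
      have hsub : p.U (R ∪ T) ⊆ p.U R := p.U_anti Finset.subset_union_left
      have hAA : Al (p.U (R ∪ T)) y ⊆ Al (p.U R) y := by
        intro i hi
        rw [mem_Al] at hi ⊢
        exact ⟨hsub hi.1, hi.2⟩
      have hw : ∀ j, 0 ≤ wt p.W R j := wt_nonneg p.hW.le R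
      refine ih y (R ∪ T) h' ?_ ⟨hy.1, ?_, ?_, ?_⟩ ?_
      · have g1 := Finset.card_le_card (hAA.trans hy.2.2.1)
        have g2 := Finset.card_erase_of_mem hq
        omega
      · intro j hj
        rw [Finset.mem_union, not_or] at hj
        by_contra hcon
        rw [not_lt] at hcon
        exact hj.2 (by simp [hT, hj.1, hcon])
      · intro j hj
        by_cases hjT : j ∈ T
        · have e : h' j = rs p.c y j := by simp [hh', hjT]
          rw [e]
          have g1 := hI.h1 j (hTm j hjT).1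
          have g2 := out_row hw hy j (p.hrow j)
          have g3 : |rs p.c y j - rs p.c p.z j| ≤ |rs p.c y j - rs p.c x j|
              + |rs p.c x j - rs p.c p.z j| := by
            have := abs_add_le (rs p.c y j - rs p.c x j) (rs p.c x j - rs p.c p.z j)
            rwa [sub_add_sub_cancel] at this
          linarith
        · have e : h' j = h j := by simp [hh', hjT]
          rw [e]
          apply hI.h2
          rcases Finset.mem_union.1 hj with h5 | h5
          · exact h5
          · exact absurd h5 hjT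
      · intro i hi
        have h5 := hI.h4 i hi
        rw [hy.2.1 i (fun hh => by
          have := (mem_Al.1 hh).2
          rw [h5, hi] at this
          exact lt_irrefl _ this), h5]
      · exact lt_of_le_of_lt (p.Tot_mono hAA y _ _) (lt_of_le_of_lt hr hy4)

theorem T3_row {A : Finset V} {x : V → ℝ} {R : Finset J} {h : J → ℝ}
    (hlt : p.Tot A x R h < 1) {j : J} (hj : j ∈ R) : |rs p.c x j - h j| < p.G := by
  have h1 : T3 p.c p.W p.μ p.G A x R h j < 1 := by
    refine lt_of_le_of_lt ?_ hlt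
    unfold Tot
    have g1 : 0 ≤ ∑ t, p.om t * T1 p.c p.W p.θ p.β p.z (p.S t) A x R :=
      Finset.sum_nonneg fun t _ => mul_nonneg (p.hom t) (T1_nonneg _ _ _ _ _ _ _ _ _)
    have g2 := Finset.single_le_sum (f := fun j => T3 p.c p.W p.μ p.G A x R h j)
      (fun k _ => T3_nonneg _ _ _ _ _ _ _ _ _) (Finset.mem_univ j)
    linarith
  unfold T3 at h1
  rw [if_pos hj] at h1
  have e1 : ∀ s : ℝ, ∑ k, (s * p.c j k) * x k = s * rs p.c x j := by
    intro s
    unfold rs
    rw [Finset.mul_sum]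
    exact Finset.sum_congr rfl fun k _ => by ring
  have k1 := tm_pos p.c (wt p.W R) A (fun k => p.μ * p.c j k) (-(p.μ * h j) - p.μ * p.G) x
  have k2 := tm_pos p.c (wt p.W R) A (fun k => -p.μ * p.c j k) (p.μ * h j - p.μ * p.G) x
  have a1 : tm p.c (wt p.W R) A (fun k => p.μ * p.c j k) (-(p.μ * h j) - p.μ * p.G) x < 1 := by
    linarith
  have a2 : tm p.c (wt p.W R) A (fun k => -p.μ * p.c j k) (p.μ * h j - p.μ * p.G) x < 1 := by
    linarith
  unfold tm at a1 a2
  rw [exp_lt_one_iff, e1] at a1 a2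
  have j1 := JG_nonneg p.c (wt p.W R) A (fun k => p.μ * p.c j k)
  have j2 := JG_nonneg p.c (wt p.W R) A (fun k => -p.μ * p.c j k)
  rw [abs_lt]
  have hμ := p.hμ
  constructor
  · by_contra hcon
    rw [not_lt] at hcon
    nlinarith
  · by_contra hcon
    rw [not_lt] at hcon
    nlinarith

end WP

theorem fq_empty (c : J → V → ℝ) (θ : ℝ) (Q : Finset J) : fq c θ ∅ Q = fun _ => 0 := by
  funext k
  simp [fq]

/-- THE TWO LEVEL WALK. Tests are sets of rows whose signed sums have small norm. -/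
theorem walk_two (c : J → V → ℝ) {W γ G : ℝ} (hW : 1 / 2 ≤ W) (hγ : 0 < γ) (hG : 0 < G)
    (hrow : ∀ j, ∑ k, c j k ^ 2 ≤ 1) (S : X → Finset J) (om : X → ℝ) (hom : ∀ t, 0 ≤ om t)
    (hS : ∀ t, ∀ T ⊆ S t, ∀ σ : J → ℝ, (∀ j, |σ j| = 1) →
      ∑ k, (∑ j ∈ T, σ j * c j k) ^ 2 ≤ 2 * (S t).card)
    (hsum : ∑ t, om t * (2 * exp (-(γ ^ 2 / 12))) ^ (S t).card
      + Fintype.card J * (2 * exp (-(W * G ^ 2 / 2))) < 1)
    {z : V → ℝ} (hz : ∀ i, |z i| ≤ 1) :
    ∃ (y : V → ℝ) (R : Finset J), (∀ i, |y i| ≤ 1) ∧ (∀ i, |z i| = 1 → y i = z i) ∧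
      (∀ i, |y i| < 1 → 1 / 2 < ∑ j ∈ R, W * c j i ^ 2) ∧
      (∀ j, |∑ i, c j i * (y i - z i)| ≤ γ + 3 + G) ∧
      (∑ t, if S t ⊆ R then om t else 0) < 1 := by
  have hW0 : 0 < W := by linarith
  let p : WP V J X :=
    { c := c
      W := W
      θ := γ / 6
      β := γ ^ 2 / 6 - (γ / 6) ^ 2 / W / 2
      γ := γ
      μ := W * G
      G := G
      z := z
      S := S
      om := om
      hW := hW0
      hθ := by positivity
      hβ := by
        have : γ / 6 * γ = γ ^ 2 / 6 := by ring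
        rw [this]
        linarith
      hμ := by positivity
      hom := hom
      hrow := hrow }
  have hstart : ∀ t, T1 c W (γ / 6) p.β z (S t) (Al (p.U ∅) z) z ∅
      ≤ (2 * exp (-(γ ^ 2 / 12))) ^ (S t).card := by
    intro t
    unfold T1
    rw [Finset.sdiff_empty]
    have hb : ∀ Q ∈ (S t).powerset, tm c (wt W ∅) (Al (p.U ∅) z) (fq c (γ / 6) (S t) Q)
        (-(∑ k, fq c (γ / 6) (S t) Q k * z k) - p.β * ((S t).card : ℝ)) z
        ≤ exp (-(γ ^ 2 / 12)) ^ (S t).card := by
      intro Q _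
      rw [← exp_nat_mul]
      unfold tm
      apply exp_le_exp.2
      have h1 := JG_le c (wt W ∅) (Al (p.U ∅) z) (fq c (γ / 6) (S t) Q)
      have h2 := hS t (S t) (Finset.Subset.refl _) (fun j => if j ∈ Q then 1 else -1) (fun j => by
        split_ifs <;> simp)
      have h3 : ∑ k, fq c (γ / 6) (S t) Q k ^ 2
          = (γ / 6) ^ 2 * ∑ k, (∑ j ∈ S t, (if j ∈ Q then (1 : ℝ) else -1) * c j k) ^ 2 := by
        rw [Finset.mul_sum]
        refine Finset.sum_congr rfl fun k _ => ?_
        have : fq c (γ / 6) (S t) Q k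
            = γ / 6 * ∑ j ∈ S t, (if j ∈ Q then (1 : ℝ) else -1) * c j k := by
          unfold fq
          rw [Finset.mul_sum]
          refine Finset.sum_congr rfl fun j _ => ?_
          split_ifs <;> ring
        rw [this]
        ring
      rw [h3] at h1
      have h4 : (γ / 6) ^ 2 * ∑ k, (∑ j ∈ S t, (if j ∈ Q then (1 : ℝ) else -1) * c j k) ^ 2
          ≤ (γ / 6) ^ 2 * (2 * (S t).card) := mul_le_mul_of_nonneg_left h2 (sq_nonneg _)
      have h5 : p.β = γ ^ 2 / 6 - (γ / 6) ^ 2 / W / 2 := rfl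
      have h6 : (γ / 6) ^ 2 / W / 2 ≤ (γ / 6) ^ 2 := by
        rw [div_div, div_le_iff₀ (by positivity)]
        have : 0 ≤ (γ / 6) ^ 2 := sq_nonneg _
        nlinarith
      have h7 : (0 : ℝ) ≤ (S t).card := Nat.cast_nonneg _
      have h8 : ((S t).card : ℝ) * (γ ^ 2 / 6 - (γ / 6) ^ 2) ≤ ((S t).card : ℝ) * p.β := by
        apply mul_le_mul_of_nonneg_left _ h7
        rw [h5]; linarith
      nlinarith
    refine (Finset.sum_le_sum hb).trans (le_of_eq ?_)
    rw [Finset.sum_const, Finset.card_powerset, nsmul_eq_mul, mul_pow]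
    push_cast
    ring
  have hrow0 : ∀ j, T3 c W (W * G) G (Al (p.U ∅) z) z ∅ (fun _ => 0) j
      = 2 * exp (-(W * G ^ 2 / 2)) := by
    intro j
    unfold T3
    rw [if_neg (Finset.notMem_empty j)]
    congr 2
    field_simp
    ring
  have hTot : p.Tot (Al (p.U ∅) z) z ∅ (fun _ => 0) < 1 := by
    refine lt_of_le_of_lt ?_ hsum
    unfold WP.Tot
    apply add_le_add
    · exact Finset.sum_le_sum fun t _ => mul_le_mul_of_nonneg_left (hstart t) (hom t)
    · have : ∑ j, T3 p.c p.W p.μ p.G (Al (p.U ∅) z) z ∅ (fun _ => 0) j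
          = ∑ _j : J, 2 * exp (-(W * G ^ 2 / 2)) := Finset.sum_congr rfl fun j _ => hrow0 j
      rw [this]
      simp
  obtain ⟨y, R, h, hI, hA, hT⟩ := p.main_induction (Al (p.U ∅) z).card z ∅ (fun _ => 0) le_rfl
    ⟨hz, fun j _ => by rw [sub_self, abs_zero]; exact hγ,
      fun j hj => absurd hj (Finset.notMem_empty j), fun i _ => rfl⟩ hTot
  refine ⟨y, R, hI.hx, hI.h4, fun i hi => ?_, fun j => ?_, ?_⟩
  · have h1 : i ∉ p.U R := by
      intro h2
      have h3 : i ∈ Al (p.U R) y := mem_Al.2 ⟨h2, hi⟩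
      rw [hA] at h3
      exact absurd h3 (Finset.notMem_empty i)
    rw [WP.mem_U, not_le] at h1
    refine lt_of_lt_of_le h1 (le_of_eq ?_)
    have e : ∑ j, wt p.W R j * p.c j i ^ 2 = ∑ j, if j ∈ R then W * c j i ^ 2 else 0 := by
      refine Finset.sum_congr rfl fun j _ => ?_
      unfold wt
      split_ifs
      · rfl
      · rw [zero_mul]
    rw [e, ← Finset.sum_filter]
    congr 1
    ext j; simp
  · have e : ∑ i, c j i * (y i - z i) = rs c y j - rs c z j := by
      rw [← rs_sub]
      rfl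
    rw [e]
    by_cases hj : j ∈ R
    · have h1 := hI.h2 j hj
      have h2 := p.T3_row hT hj
      have h3 : |rs c y j - rs c z j| ≤ |rs c y j - h j| + |h j - rs c z j| := by
        have := abs_add_le (rs c y j - h j) (h j - rs c z j)
        rwa [sub_add_sub_cancel] at this
      have e1 : p.G = G := rfl
      have e2 : p.γ = γ := rfl
      have e3 : p.c = c := rfl
      have e4 : p.z = z := rfl
      rw [e1, e3] at h2
      rw [e2, e3, e4] at h1
      linarith
    · have h1 := hI.h1 j hj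
      have e2 : p.γ = γ := rfl
      have e3 : p.c = c := rfl
      have e4 : p.z = z := rfl
      rw [e2, e3, e4] at h1
      linarith
  · refine lt_of_le_of_lt ?_ hT
    unfold WP.Tot
    have g0 : 0 ≤ ∑ j, T3 p.c p.W p.μ p.G ∅ y R h j :=
      Finset.sum_nonneg fun j _ => T3_nonneg _ _ _ _ _ _ _ _ _
    have g1 : (∑ t, if S t ⊆ R then om t else 0)
        ≤ ∑ t, p.om t * T1 p.c p.W p.θ p.β p.z (p.S t) ∅ y R := by
      refine Finset.sum_le_sum fun t _ => ?_
      by_cases ht : S t ⊆ R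
      · rw [if_pos ht]
        have e1 : T1 p.c p.W p.θ p.β p.z (p.S t) ∅ y R = 1 := by
          have e2 : p.S t \ R = ∅ := Finset.sdiff_eq_empty_iff_subset.2 ht
          unfold T1
          rw [e2]
          simp only [Finset.powerset_empty, Finset.sum_singleton, fq_empty]
          unfold tm
          rw [JG_zero p.c (wt_nonneg p.hW.le R)]
          simp
        rw [e1, mul_one]
      · rw [if_neg ht]
        exact mul_nonneg (p.hom t) (T1_nonneg _ _ _ _ _ _ _ _ _)
    linarith

end Pool.Agent.Helper68.RN
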